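import Pool.Agent.H42.MC.RLC

/-!
# RL2: the region lemma in dimension at least two (MP_5da387_pr)
-/

namespace Pool.Agent.H42.MC

open Classical MeasureTheory ProbabilityTheory Pool.Agent.H96.MC

noncomputable section

variable {q : ℕ}

lemma mem_filter_any {α : Type*} (p : α → Prop) (inst : DecidablePred p) (s : Finset α) (a : α) :
    a ∈ @Finset.filter α p inst s ↔ a ∈ s ∧ p a := Finset.mem_filter

/-- RL2. -/
theorem rl2 (h1 : T_CLU) (h2 : T_CONN) (h3 : T_TH) : T_RL2 := by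
  intro d q D η c₁ e N n0 hd hAL he he2 hN
  obtain ⟨hη0, hη, hc₁, hAL⟩ := hAL
  obtain ⟨L₀, hL₀⟩ := cut_exists h1 h3 d D (n0 := n0) hc₁ hη0 hη he he2
    (show 1 ≤ N by omega)
  refine ⟨L₀, ?_⟩
  intro L hL Y m v ty hY hvY htyF hcard hcollar hint htyv hgood hLat
  obtain ⟨i, hi, C, hCY, hcube, hCC, hcut⟩ := hL₀ L hL Y m v ty hvY htyF hcard hcollar hint
    htyv hgood
  obtain ⟨U, w, hcut⟩ := hcut 0
  have hTs : TF η e N n0 i = sF η e N n0 i + t1F η e N := rfl
  have hConn := h2 d Y C (sF η e N n0 i) hd hY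
    (fun c hc b hb => hcube c hc b (by rw [mem_cube] at hb; omega))
    (fun c hc c' hc' hne => by have := hCC c hc c' hc' hne; omega)
  have hUt : (∑ c ∈ C, U c) ∈ Tl D.V (N : ℝ) := AddSubmonoid.sum_mem _ hcut.tl
  choose! cb hcb using hcut.fat
  have hwt : w ∈ Tl D.V 2 := by
    refine hAL _ cb w hConn ?_ ?_ ?_
    · intro x hx
      exact (mem_filter_any _ _ _ _).2 (hcut.wsup x hx)
    · intro b hb
      have hb' := (mem_filter_any _ _ _ _).1 hb
      exact hcb b hb'.1 hb'.2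
    · have h4 : toZ (tot v) = toZ (tot w) + toZ (tot (∑ c ∈ C, U c)) := by
        rw [← toZ_add, ← tot_add, ← hcut.eq]
      have h5 : toZ (tot w) = toZ (tot v) - toZ (tot (∑ c ∈ C, U c)) := by
        rw [h4]; abel
      rw [h5]
      exact (Lat D.V).sub_mem hLat (closure_toZ (Tl_tot hUt))
  rw [hcut.eq]
  refine AddSubmonoid.add_mem _ (Tl_mono ?_ hwt) hUt
  exact_mod_cast hN

end

end Pool.Agent.H42.MC
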