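import Pool.Agent.H42.MC.RLC
import Pool.Agent.H42.MC.RL2

/-!
# RL1: the region lemma in dimension one (MP_5da387_pr)
-/

namespace Pool.Agent.H42.MC

open Classical MeasureTheory ProbabilityTheory Pool.Agent.H96.MC

noncomputable section

variable {q : ℕ}

/-! ### connected sets of integers -/

lemma adj_one {a b : Cell 1} : Adj a b ↔ (a 0 - b 0).natAbs = 1 := by
  unfold Adj
  rw [Fin.sum_univ_one]

lemma cell_ext {a b : Cell 1} (h : a 0 = b 0) : a = b := by
  funext i
  have : i = 0 := Subsingleton.elim _ _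
  rw [this, h]

lemma sn_one (a : Cell 1) : sn a = (a 0).natAbs := by
  unfold sn
  simp

lemma conv_of_conn {Y : Finset (Cell 1)} (h : Conn Y) {a b : Cell 1} (ha : a ∈ Y) (hb : b ∈ Y)
    {x : Cell 1} (h1 : a 0 ≤ x 0) (h2 : x 0 ≤ b 0) : x ∈ Y := by
  have key : ∀ y : Cell 1, Relation.ReflTransGen (fun a b => a ∈ Y ∧ b ∈ Y ∧ Adj a b) a y →
      ∀ x : Cell 1, a 0 ≤ x 0 → x 0 ≤ y 0 → x ∈ Y := by
    intro y hy
    induction hy with
    | refl =>
      intro x h1 h2
      have : x = a := cell_ext (le_antisymm h2 h1)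
      rw [this]; exact ha
    | tail _ hyz ih =>
      rename_i y z _
      intro x h1 h2
      obtain ⟨_, hz, hadj⟩ := hyz
      rw [adj_one] at hadj
      by_cases h3 : x 0 ≤ y 0
      · exact ih x h1 h3
      · have : x = z := cell_ext (by omega)
        rw [this]; exact hz
  exact key b (h a ha b hb) x h1 h2

lemma conn_of_conv {Y : Finset (Cell 1)}
    (h : ∀ a ∈ Y, ∀ b ∈ Y, ∀ x : Cell 1, a 0 ≤ x 0 → x 0 ≤ b 0 → x ∈ Y) : Conn Y := by
  have key : ∀ (n : ℕ) (x y : Cell 1), x ∈ Y → y ∈ Y → y 0 = x 0 + n →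
      Relation.ReflTransGen (fun a b => a ∈ Y ∧ b ∈ Y ∧ Adj a b) x y ∧
      Relation.ReflTransGen (fun a b => a ∈ Y ∧ b ∈ Y ∧ Adj a b) y x := by
    intro n
    induction n with
    | zero =>
      intro x y _ _ hxy
      have : y = x := cell_ext (by simpa using hxy)
      rw [this]
      exact ⟨Relation.ReflTransGen.refl, Relation.ReflTransGen.refl⟩
    | succ n ih =>
      intro x y hx hy hxy
      have hz : (fun _ => y 0 - 1 : Cell 1) ∈ Y := by
        refine h x hx y hy _ ?_ ?_
        · push_cast at hxy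
          show x 0 ≤ y 0 - 1
          omega
        · show y 0 - 1 ≤ y 0
          omega
      obtain ⟨h1, h2⟩ := ih x (fun _ => y 0 - 1 : Cell 1) hx hz (by push_cast at hxy; omega)
      have h3 : Adj (fun _ => y 0 - 1 : Cell 1) y := by
        rw [adj_one]
        show (y 0 - 1 - y 0).natAbs = 1
        omega
      have h4 : Adj y (fun _ => y 0 - 1 : Cell 1) := by
        rw [adj_one]
        show (y 0 - (y 0 - 1)).natAbs = 1
        omega
      exact ⟨h1.tail ⟨hz, hy, h3⟩, Relation.ReflTransGen.head ⟨hy, hz, h4⟩ h2⟩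
  intro x hx y hy
  rcases le_total (x 0) (y 0) with h1 | h1
  · exact (key (y 0 - x 0).toNat x y hx hy (by omega)).1
  · exact (key (x 0 - y 0).toNat y x hy hx (by omega)).2

/-! ### the separating sets -/

/-- centres to the left of `x` -/
def Lc (C : Finset (Cell 1)) (x : Cell 1) : Finset (Cell 1) := C.filter (fun c => c 0 < x 0)

lemma mem_Lc {C : Finset (Cell 1)} {x c : Cell 1} : c ∈ Lc C x ↔ c ∈ C ∧ c 0 < x 0 :=
  Finset.mem_filter

lemma Lc_mono {C : Finset (Cell 1)} {x y : Cell 1} (h : x 0 ≤ y 0) : Lc C x ⊆ Lc C y := by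
  intro c hc
  rw [mem_Lc] at hc ⊢
  exact ⟨hc.1, lt_of_lt_of_le hc.2 h⟩

/-- the part of `w` given by a predicate -/
def prt (w : Pat 1 q) (p : Cell 1 → Prop) : Pat 1 q := w.filter (fun x => p x.1)

lemma prt_pos {w : Pat 1 q} {p : Cell 1 → Prop} {x : CC 1 q} (h : p x.1) : prt w p x = w x := by
  unfold prt
  exact Finsupp.filter_apply_pos (fun x : CC 1 q => p x.1) w h

lemma prt_neg {w : Pat 1 q} {p : Cell 1 → Prop} {x : CC 1 q} (h : ¬ p x.1) : prt w p x = 0 := by
  unfold prt
  exact Finsupp.filter_apply_neg (fun x : CC 1 q => p x.1) w h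

lemma prt_all {w : Pat 1 q} {p : Cell 1 → Prop} (h : ∀ x, p x) : prt w p = w := by
  ext x
  exact prt_pos (h x.1)

/-- class of the part of `w` given by a predicate -/
def clsOf (w : Pat 1 q) (p : Cell 1 → Prop) : Fin q → ℤ := toZ (tot (prt w p))

lemma clsOf_add_not (w : Pat 1 q) (p : Cell 1 → Prop) :
    clsOf w p + clsOf w (fun x => ¬ p x) = toZ (tot w) := by
  unfold clsOf
  rw [← toZ_add, ← tot_add]
  congr 2
  ext x
  rw [Finsupp.add_apply]
  by_cases h : p x.1
  · rw [prt_pos h, prt_neg (not_not.2 h), add_zero]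
  · rw [prt_neg h, prt_pos (p := fun x => ¬ p x) h, zero_add]

lemma clsOf_congr {w : Pat 1 q} {p p' : Cell 1 → Prop} (h : ∀ x ∈ w.support, (p x.1 ↔ p' x.1)) :
    clsOf w p = clsOf w p' := by
  unfold clsOf
  congr 2
  ext x
  by_cases hp : p x.1
  · by_cases hp' : p' x.1
    · rw [prt_pos hp, prt_pos hp']
    · rw [prt_pos hp, prt_neg hp']
      by_contra h0
      exact hp' ((h x (Finsupp.mem_support_iff.2 h0)).1 hp)
  · by_cases hp' : p' x.1
    · rw [prt_neg hp, prt_pos hp']
      by_contra h0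
      exact hp ((h x (Finsupp.mem_support_iff.2 (fun h1 => h0 h1.symm))).2 hp')
    · rw [prt_neg hp, prt_neg hp']

/-- classes of the pieces -/
lemma piece_cls {V : Finset (Fin q → ℕ)} {w : Pat 1 q} {C : Finset (Cell 1)}
    (hw : toZ (tot w) ∈ Lat V) (hc : ∀ c ∈ C, clsOf w (fun x => x 0 ≤ c 0) ∈ Lat V)
    {x₀ : Cell 1} {S : Finset (Cell 1)} (hS : Lc C x₀ = S) :
    clsOf w (fun x => Lc C x = S) ∈ Lat V := by
  have hSC : S ⊆ C := by rw [← hS]; exact Finset.filter_subset _ _
  have h1 : clsOf w (fun x => S ⊆ Lc C x) ∈ Lat V := by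
    rcases S.eq_empty_or_nonempty with he | hne
    · have : clsOf w (fun x => S ⊆ Lc C x) = toZ (tot w) := by
        unfold clsOf
        rw [prt_all]
        intro x
        rw [he]
        exact Finset.empty_subset _
      rw [this]; exact hw
    · obtain ⟨c, hcS, hcmax⟩ := Finset.exists_max_image S (fun c => c 0) hne
      have h2 := clsOf_add_not w (fun x => x 0 ≤ c 0)
      have h3 : clsOf w (fun x => S ⊆ Lc C x) = clsOf w (fun x => ¬ x 0 ≤ c 0) := by
        refine clsOf_congr fun x _ => ?_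
        constructor
        · intro h
          have := (mem_Lc.1 (h hcS)).2
          omega
        · intro h c' hc'
          rw [mem_Lc]
          have := hcmax c' hc'
          exact ⟨hSC hc', by omega⟩
      rw [h3]
      have h4 : clsOf w (fun x => ¬ x 0 ≤ c 0) = toZ (tot w) - clsOf w (fun x => x 0 ≤ c 0) := by
        rw [← h2]; abel
      rw [h4]
      exact (Lat V).sub_mem hw (hc c (hSC hcS))
  have h2 : clsOf w (fun x => Lc C x ⊆ S) ∈ Lat V := by
    rcases (C \ S).eq_empty_or_nonempty with he | hne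
    · have : clsOf w (fun x => Lc C x ⊆ S) = toZ (tot w) := by
        unfold clsOf
        rw [prt_all]
        intro x c hc
        by_contra hcS
        have : c ∈ C \ S := Finset.mem_sdiff.2 ⟨(mem_Lc.1 hc).1, hcS⟩
        rw [he] at this
        exact absurd this (Finset.notMem_empty _)
      rw [this]; exact hw
    · obtain ⟨c, hcS, hcmin⟩ := Finset.exists_min_image (C \ S) (fun c => c 0) hne
      rw [Finset.mem_sdiff] at hcS
      have h3 : clsOf w (fun x => Lc C x ⊆ S) = clsOf w (fun x => x 0 ≤ c 0) := by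
        refine clsOf_congr fun x _ => ?_
        constructor
        · intro h
          by_contra hlt
          exact hcS.2 (h (mem_Lc.2 ⟨hcS.1, by omega⟩))
        · intro h c' hc'
          rw [mem_Lc] at hc'
          by_contra hc'S
          have := hcmin c' (Finset.mem_sdiff.2 ⟨hc'.1, hc'S⟩)
          omega
      rw [h3]
      exact hc c hcS.1
  have h3 : clsOf w (fun x => S ⊆ Lc C x) + clsOf w (fun x => Lc C x ⊆ S)
      = toZ (tot w) + clsOf w (fun x => Lc C x = S) := by
    unfold clsOf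
    rw [← toZ_add, ← toZ_add, ← tot_add, ← tot_add]
    congr 2
    ext x
    rw [Finsupp.add_apply, Finsupp.add_apply]
    have h4 : S ⊆ Lc C x.1 ∨ Lc C x.1 ⊆ S := by
      rw [← hS]
      rcases le_total (x₀ 0) (x.1 0) with h | h
      · exact Or.inl (Lc_mono h)
      · exact Or.inr (Lc_mono h)
    by_cases h5 : S ⊆ Lc C x.1
    · by_cases h6 : Lc C x.1 ⊆ S
      · rw [prt_pos (p := fun x => S ⊆ Lc C x) h5, prt_pos (p := fun x => Lc C x ⊆ S) h6,
          prt_pos (p := fun x => Lc C x = S) (Finset.Subset.antisymm h6 h5)]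
      · rw [prt_pos (p := fun x => S ⊆ Lc C x) h5, prt_neg (p := fun x => Lc C x ⊆ S) h6,
          prt_neg (p := fun x => Lc C x = S) (fun h => h6 (by rw [h]))]
    · have h6 : Lc C x.1 ⊆ S := h4.resolve_left h5
      rw [prt_neg (p := fun x => S ⊆ Lc C x) h5, prt_pos (p := fun x => Lc C x ⊆ S) h6,
        prt_neg (p := fun x => Lc C x = S) (fun h => h5 (by rw [h])), zero_add, add_zero]
  have h4 : clsOf w (fun x => Lc C x = S)
      = clsOf w (fun x => S ⊆ Lc C x) + clsOf w (fun x => Lc C x ⊆ S) - toZ (tot w) := by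
    rw [h3]; abel
  rw [h4]
  exact (Lat V).sub_mem ((Lat V).add_mem h1 h2) hw

/-- the pieces sum up to the whole pattern -/
lemma sum_pieces (w : Pat 1 q) (C : Finset (Cell 1)) :
    ∑ S ∈ C.powerset, prt w (fun x => Lc C x = S) = w := by
  ext x
  rw [Finsupp.finsetSum_apply, Finset.sum_eq_single (Lc C x.1)]
  · exact prt_pos (p := fun y => Lc C y = Lc C x.1) rfl
  · intro S _ hne
    exact prt_neg (p := fun y => Lc C y = S) (fun h => hne h.symm)
  · intro h
    exact absurd (Finset.mem_powerset.2 (Finset.filter_subset _ _)) h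

/-- RL1. -/
theorem rl1 (h1 : T_CLU) (h3 : T_TH) : T_RL1 := by
  intro q D η c₁ e N n0 hAL he he2 hN
  obtain ⟨hη0, hη, hc₁, hAL⟩ := hAL
  obtain ⟨L₀, hL₀⟩ := cut_exists h1 h3 1 D (n0 := n0) hc₁ hη0 hη he he2
    (show 1 ≤ N by omega)
  refine ⟨L₀, ?_⟩
  intro L hL Y m v ty hY hvY htyF hcard hcollar hint htyv hgood hLat
  obtain ⟨i, hi, C, hCY, hcube, hCC, hcut⟩ := hL₀ L hL Y m v ty hvY htyF hcard hcollar hint
    htyv hgood
  obtain ⟨U, w, hcut⟩ := hcut (fun c => toZ (tot (lft c (sF η e N n0 i) v)))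
  have hTs : TF η e N n0 i = sF η e N n0 i + t1F η e N := rfl
  obtain ⟨s, hs⟩ : ∃ s, s = sF η e N n0 i := ⟨_, rfl⟩
  obtain ⟨T, hT⟩ : ∃ T, T = TF η e N n0 i := ⟨_, rfl⟩
  rw [← hs, ← hT] at hTs hcut
  rw [← hT] at hCC hcube
  have hUt : (∑ c ∈ C, U c) ∈ Tl D.V (N : ℝ) := AddSubmonoid.sum_mem _ hcut.tl
  choose! cb hcb using hcut.fat
  have hwLat : toZ (tot w) ∈ Lat D.V := by
    have h4 : toZ (tot v) = toZ (tot w) + toZ (tot (∑ c ∈ C, U c)) := by
      rw [← toZ_add, ← tot_add, ← hcut.eq]
    have h5 : toZ (tot w) = toZ (tot v) - toZ (tot (∑ c ∈ C, U c)) := by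
      rw [h4]; abel
    rw [h5]
    exact (Lat D.V).sub_mem hLat (closure_toZ (Tl_tot hUt))
  have hlft : ∀ c ∈ C, toZ (tot (lft c s w)) ∈ Lat D.V := by
    intro c hc
    have h4 : toZ (tot (lft c s v)) = toZ (tot (lft c s w))
        + ∑ c' ∈ C, toZ (tot (lft c s (U c'))) := by
      have h5 := congrArg (lftHom q c s) hcut.eq
      rw [map_add, map_sum] at h5
      exact h5
    have h6 : toZ (tot (lft c s w)) = -(toZ (tot (lft c s (U c))) - toZ (tot (lft c s v)))
        - ∑ c' ∈ C.erase c, toZ (tot (lft c s (U c'))) := by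
      rw [h4, ← Finset.add_sum_erase C _ hc]; abel
    rw [h6]
    refine (Lat D.V).sub_mem ((Lat D.V).neg_mem (hcut.cls rfl c hc)) ?_
    refine (Lat D.V).sum_mem fun c' hc' => ?_
    rw [Finset.mem_erase] at hc'
    have hsep := hCC c hc c' hc'.2 (Ne.symm hc'.1)
    rw [sn_one] at hsep
    simp only [Pi.sub_apply] at hsep
    rcases le_total (c' 0) (c 0) with hle | hle
    · have h7 : lft c s (U c') = U c' := by
        unfold lft
        rw [Finsupp.filter_eq_self_iff]
        intro x hx
        have h8 := hcut.sup c' hc'.2 x (Finsupp.mem_support_iff.2 hx)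
        rw [sn_one] at h8
        simp only [Pi.sub_apply] at h8
        exact ⟨0, by omega⟩
      rw [h7]
      exact closure_toZ (Tl_tot (hcut.tl c' hc'.2))
    · have h7 : lft c s (U c') = 0 := by
        unfold lft
        rw [Finsupp.filter_eq_zero_iff]
        intro x hx
        by_contra h0
        have h8 := hcut.sup c' hc'.2 x (Finsupp.mem_support_iff.2 h0)
        rw [sn_one] at h8
        simp only [Pi.sub_apply] at h8
        obtain ⟨j, hj⟩ := hx
        have hj0 : j = 0 := Subsingleton.elim _ _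
        subst hj0
        omega
      rw [h7, tot_zero, toZ_zero]
      exact (Lat D.V).zero_mem
  have hcls : ∀ c ∈ C, clsOf w (fun x => x 0 ≤ c 0) ∈ Lat D.V := by
    intro c hc
    have h4 : clsOf w (fun x => x 0 ≤ c 0) = toZ (tot (lft c s w)) := by
      have h4a : clsOf w (fun x => x 0 ≤ c 0) = clsOf w (fun x => ∃ i, x i < c i - (s : ℤ)) := by
        refine clsOf_congr ?_
        intro x hx
        have h5 := (hcut.wsup x hx).2 c hc
        rw [sn_one] at h5
        simp only [Pi.sub_apply] at h5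
        constructor
        · intro h6
          exact ⟨0, by omega⟩
        · rintro ⟨j, hj⟩
          have hj0 : j = 0 := Subsingleton.elim _ _
          subst hj0
          omega
      rw [h4a]
      unfold clsOf
      congr 2
      unfold lft
      ext x
      by_cases h5 : ∃ i, x.1 i < c i - (s : ℤ)
      · rw [prt_pos (p := fun x => ∃ i, x i < c i - (s : ℤ)) h5,
          Finsupp.filter_apply_pos (fun x : CC 1 q => ∃ i, x.1 i < c i - (s : ℤ)) w h5]
      · rw [prt_neg (p := fun x => ∃ i, x i < c i - (s : ℤ)) h5,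
          Finsupp.filter_apply_neg (fun x : CC 1 q => ∃ i, x.1 i < c i - (s : ℤ)) w h5]
    rw [h4]
    exact hlft c hc
  have hwt : w ∈ Tl D.V 2 := by
    rw [← sum_pieces w C]
    refine AddSubmonoid.sum_mem _ fun S _ => ?_
    by_cases hS : ∃ x₀, Lc C x₀ = S
    · obtain ⟨x₀, hx₀⟩ := hS
      refine hAL (Y.filter (fun b => (∀ c ∈ C, s < sn (b - c)) ∧ Lc C b = S)) cb _ ?_ ?_ ?_ ?_
      · refine conn_of_conv ?_
        intro a ha b hb x hax hxb
        rw [mem_filter_any] at ha hb ⊢
        have hLx : Lc C x = S := by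
          refine Finset.Subset.antisymm ?_ ?_
          · rw [← hb.2.2]; exact Lc_mono hxb
          · rw [← ha.2.2]; exact Lc_mono hax
        refine ⟨conv_of_conn hY ha.1 hb.1 hax hxb, ?_, hLx⟩
        intro c hc
        have h4 := ha.2.1 c hc
        have h5 := hb.2.1 c hc
        rw [sn_one] at h4 h5 ⊢
        simp only [Pi.sub_apply] at h4 h5 ⊢
        by_cases hca : c 0 < a 0
        · omega
        · have h6 : ¬ c 0 < b 0 := by
            intro h7
            have h8 : c ∈ Lc C b := mem_Lc.2 ⟨hc, h7⟩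
            rw [hb.2.2, ← ha.2.2] at h8
            exact hca (mem_Lc.1 h8).2
          omega
      · intro x hx
        rw [Finsupp.mem_support_iff] at hx
        by_cases hxS : Lc C x.1 = S
        · rw [prt_pos (p := fun x => Lc C x = S) hxS] at hx
          have h4 := hcut.wsup x (Finsupp.mem_support_iff.2 hx)
          rw [mem_filter_any]
          exact ⟨h4.1, h4.2, hxS⟩
        · rw [prt_neg (p := fun x => Lc C x = S) hxS] at hx
          exact absurd rfl hx
      · intro b hb
        rw [mem_filter_any] at hb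
        have h4 := hcb b hb.1 hb.2.1
        refine ⟨h4.1, ?_⟩
        intro j
        have h5 := h4.2 j
        have h6 : prt w (fun x => Lc C x = S) (b, j) = w (b, j) :=
          prt_pos (p := fun x => Lc C x = S) (x := (b, j)) hb.2.2
        simp only at h5 ⊢
        rw [h6]
        exact h5
      · exact piece_cls hwLat hcls hx₀
    · have h4 : prt w (fun x => Lc C x = S) = 0 := by
        ext x
        exact prt_neg (p := fun x => Lc C x = S) (fun hx => hS ⟨x.1, hx⟩)
      rw [h4]
      exact AddSubmonoid.zero_mem _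
  rw [hcut.eq]
  refine AddSubmonoid.add_mem _ (Tl_mono ?_ hwt) hUt
  exact_mod_cast hN

end

end Pool.Agent.H42.MC
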