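import Pool.Agent.H96.MC.Targets

/-!
# Common part of RL1 and RL2: clusters, windows and thinned matchings (MP_5da387_pr)
-/

namespace Pool.Agent.H42.MC

open Classical MeasureTheory ProbabilityTheory Pool.Agent.H96.MC

noncomputable section

variable {d q : ℕ}

/-! ### translations of patterns -/

lemma push_shift_apply (c : Cell d) (u : Pat d q) (x : CC d q) :
    push (fun z => z + c) u x = u (x.1 - c, x.2) := by
  have hinj : Function.Injective (fun x : CC d q => (x.1 + c, x.2)) := by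
    intro a b h
    simp only [Prod.mk.injEq, add_left_inj] at h
    exact Prod.ext h.1 h.2
  have h := Finsupp.mapDomain_apply hinj u (x.1 - c, x.2)
  simp only [sub_add_cancel] at h
  exact h

lemma mem_support_push_shift {c : Cell d} {u : Pat d q} {x : CC d q} :
    x ∈ (push (fun z => z + c) u).support ↔ (x.1 - c, x.2) ∈ u.support := by
  rw [Finsupp.mem_support_iff, Finsupp.mem_support_iff, push_shift_apply]

lemma fam_push_shift {V : Finset (Fin q → ℕ)} {r : ℝ} {u : Pat d q} (c : Cell d)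
    (h : Fam V r u) : Fam V r (push (fun z => z + c) u) := by
  refine ⟨?_, ?_, ?_⟩
  · intro h0
    apply h.1
    ext x
    have := DFunLike.congr_fun h0 (x.1 + c, x.2)
    rw [push_shift_apply] at this
    simpa using this
  · rw [tot_push]; exact h.2.1
  · intro x hx y hy
    rw [mem_support_push_shift] at hx hy
    have := h.2.2 _ hx _ hy
    simpa using this

lemma push_shift_mem_Tl {V : Finset (Fin q → ℕ)} {r : ℝ} {u : Pat d q} (c : Cell d)
    (h : u ∈ Tl V r) : push (fun z => z + c) u ∈ Tl V r := by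
  induction h using AddSubmonoid.closure_induction with
  | mem x hx => exact AddSubmonoid.subset_closure (fam_push_shift c hx)
  | zero => rw [push_zero]; exact AddSubmonoid.zero_mem _
  | add x y _ _ h1 h2 => rw [push_add]; exact AddSubmonoid.add_mem _ h1 h2

/-! ### left totals in dimension one -/

/-- part of a pattern to the left of `c - s` -/
def lft (c : Cell d) (s : ℕ) (u : Pat d q) : Pat d q :=
  u.filter (fun x => ∃ i, x.1 i < c i - (s : ℤ))

lemma lft_add (c : Cell d) (s : ℕ) (u v : Pat d q) : lft c s (u + v) = lft c s u + lft c s v :=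
  Finsupp.filter_add

/-- left totals as a homomorphism -/
def lftHom (q : ℕ) (c : Cell d) (s : ℕ) : Pat d q →+ (Fin q → ℤ) where
  toFun u := toZ (tot (lft c s u))
  map_zero' := by
    have : lft c s (0 : Pat d q) = 0 := Finsupp.filter_zero _
    rw [this, tot_zero, toZ_zero]
  map_add' u v := by rw [lft_add, tot_add, toZ_add]

lemma tot_lft_push (c : Cell d) (s : ℕ) (u : Pat d q) :
    tot (lft c s (push (fun z => z + c) u)) = tot (lft 0 s u) := by
  have key : ∀ (x : CC d q), (∃ i, (x.1 + c) i < c i - (s : ℤ)) ↔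
      ∃ i, x.1 i < (0 : Cell d) i - (s : ℤ) := by
    intro x
    refine exists_congr fun i => ?_
    simp only [Pi.add_apply, Pi.zero_apply]
    omega
  induction u using Finsupp.induction_linear with
  | zero =>
    rw [push_zero]
    have h0 : ∀ c : Cell d, lft c s (0 : Pat d q) = 0 := fun _ => Finsupp.filter_zero _
    rw [h0, h0]
  | add f g hf hg => rw [push_add, lft_add, lft_add, tot_add, tot_add, hf, hg]
  | single a b =>
    rw [push_single]
    unfold lft
    by_cases h : ∃ i, a.1 i < (0 : Cell d) i - (s : ℤ)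
    · rw [Finsupp.filter_single_of_pos (fun x : CC d q => ∃ i, x.1 i < c i - (s : ℤ))
        ((key a).2 h), Finsupp.filter_single_of_pos
        (fun x : CC d q => ∃ i, x.1 i < (0 : Cell d) i - (s : ℤ)) h,
        tot_single, tot_single]
    · rw [Finsupp.filter_single_of_neg (fun x : CC d q => ∃ i, x.1 i < c i - (s : ℤ))
        (fun h' => h ((key a).1 h')), Finsupp.filter_single_of_neg
        (fun x : CC d q => ∃ i, x.1 i < (0 : Cell d) i - (s : ℤ)) h]

lemma leftCls_cons (s : ℕ) (u : Pat d q) (μ : Multiset (Pat d q)) :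
    leftCls s (u ::ₘ μ) = (if ∃ x ∈ u.support, sn x.1 ≤ s then toZ (tot (lft 0 s u)) else 0)
      + leftCls s μ := by
  have h3 : ∀ u : Pat d q, u.filter (fun x => ∃ i, x.1 i < -(s : ℤ)) = lft 0 s u := by
    intro u
    unfold lft
    ext x
    simp only [Finsupp.filter_apply, Pi.zero_apply, zero_sub]
  unfold leftCls
  by_cases h : ∃ x ∈ u.support, sn x.1 ≤ s
  · rw [if_pos h, Multiset.filter_cons_of_pos (p := fun u : Pat d q => ∃ x ∈ u.support, sn x.1 ≤ s)
      _ h, Multiset.map_cons, Multiset.sum_cons, h3]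
  · rw [if_neg h, Multiset.filter_cons_of_neg (p := fun u : Pat d q => ∃ x ∈ u.support, sn x.1 ≤ s)
      _ h, zero_add]

lemma toZ_mem_Lat {V : Finset (Fin q → ℕ)} {x : Fin q → ℕ} (h : x ∈ V) : toZ x ∈ Lat V :=
  AddSubgroup.subset_closure ⟨x, h, rfl⟩

lemma lft_of_not_touch {V : Finset (Fin q → ℕ)} {N s : ℕ} (hNs : N ≤ s) {u : Pat 1 q}
    (hu : Fam V (N : ℝ) u) (ht : ¬ ∃ x ∈ u.support, sn x.1 ≤ s) :
    toZ (tot (lft 0 s u)) ∈ Lat V := by
  by_cases h : ∀ x ∈ u.support, ∃ i, x.1 i < (0 : Cell 1) i - (s : ℤ)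
  · have h1 : lft 0 s u = u := by
      unfold lft
      rw [Finsupp.filter_eq_self_iff]
      intro x hx
      exact h x (Finsupp.mem_support_iff.2 hx)
    rw [h1]
    exact toZ_mem_Lat hu.2.1
  · push Not at h
    obtain ⟨x, hx, hx2⟩ := h
    have h1 : lft 0 s u = 0 := by
      unfold lft
      rw [Finsupp.filter_eq_zero_iff]
      intro y hy
      by_contra h0
      have hy' := Finsupp.mem_support_iff.2 h0
      obtain ⟨i, hi⟩ := hy
      have hi0 : i = 0 := Subsingleton.elim _ _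
      subst hi0
      have h3 := hx2 0
      have h4 : ¬ sn x.1 ≤ s := fun h => ht ⟨x, hx, h⟩
      rw [sn_le_iff] at h4
      push Not at h4
      obtain ⟨j, hj⟩ := h4
      have hj0 : j = 0 := Subsingleton.elim _ _
      subst hj0
      have h5 := hu.2.2 x hx y hy'
      have h6 : sn (x.1 - y.1) ≤ N := by
        have := (sn_le_nrm (x.1 - y.1)).trans h5
        exact_mod_cast this
      have h7 := natAbs_le_sn (x.1 - y.1) 0
      simp only [Pi.sub_apply, Pi.zero_apply] at h3 hi h7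
      omega
    rw [h1, tot_zero, toZ_zero]
    exact (Lat V).zero_mem

lemma leftCls_eq {V : Finset (Fin q → ℕ)} {N s : ℕ} (hNs : N ≤ s)
    (μ : Multiset (Pat 1 q)) (hμ : ∀ u ∈ μ, Fam V (N : ℝ) u) :
    toZ (tot (lft 0 s μ.sum)) - leftCls s μ ∈ Lat V := by
  induction μ using Multiset.induction_on with
  | empty =>
    have h1 := (lftHom q (0 : Cell 1) s).map_zero
    have h2 : toZ (tot (lft 0 s (0 : Pat 1 q))) = 0 := h1
    rw [Multiset.sum_zero, h2]
    have h3 : leftCls s (0 : Multiset (Pat 1 q)) = 0 := rfl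
    rw [h3, sub_zero]
    exact (Lat V).zero_mem
  | cons u μ ih =>
    have ih' := ih (fun v hv => hμ v (Multiset.mem_cons_of_mem hv))
    rw [Multiset.sum_cons, leftCls_cons, lft_add, tot_add, toZ_add]
    by_cases h : ∃ x ∈ u.support, sn x.1 ≤ s
    · rw [if_pos h, add_sub_add_left_eq_sub]
      exact ih'
    · rw [if_neg h, zero_add, add_sub_assoc]
      exact (Lat V).add_mem (lft_of_not_touch hNs (hμ u (Multiset.mem_cons_self _ _)) h) ih'

/-! ### scales -/

lemma rhoF_mono (η e : ℝ) (N n0 : ℕ) : Monotone (rhoF η e N n0) := by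
  refine monotone_nat_of_le_succ fun i => ?_
  rcases Nat.eq_zero_or_pos n0 with h | h
  · subst h
    cases i with
    | zero => simp only [rhoF]; omega
    | succ i => simp only [rhoF]; omega
  · have h1 : rhoF η e N n0 i ≤ n0 * rhoF η e N n0 i := Nat.le_mul_of_pos_left _ h
    simp only [rhoF]
    omega

lemma TF_mono (η e : ℝ) (N n0 : ℕ) {i j : ℕ} (h : i ≤ j) : TF η e N n0 i ≤ TF η e N n0 j := by
  have h1 := rhoF_mono η e N n0 h
  have h2 := Nat.mul_le_mul_left n0 h1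
  unfold TF sF
  omega

lemma rhoF_succ (η e : ℝ) (N n0 i : ℕ) :
    rhoF η e N n0 (i + 1) = 2 * (TF η e N n0 i + N) + 1 := by
  simp only [rhoF, TF, sF]

/-- The statement of TH for fixed parameters. -/
def THat (D : Dat q) (d : ℕ) (η e : ℝ) (N s : ℕ) (L : ℝ) : Prop :=
  ∀ (m : Cfg d q) (μ : Multiset (Pat d q)) (y : Pat d q),
    (∀ u ∈ μ, Fam D.V (N : ℝ) u) → (∀ x, sn x.1 ≤ s + t1F η e N → y x = 0) →
    μ.sum + y = rst (red e s (s + t1F η e N) m) (cube 0 (s + t1F η e N + N)) →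
    (∀ b, s < sn b → sn b ≤ s + t1F η e N + N → Fat D.lam (η / 4) L (fun i => m (b, i))) →
    ∃ μ' : Multiset (Pat d q), μ' ≤ μ ∧
      μ'.filter (fun u => ∃ x ∈ u.support, sn x.1 ≤ s) = μ.filter (fun u => ∃ x ∈ u.support, sn x.1 ≤ s) ∧
      (∀ u ∈ μ', ∀ x ∈ u.support, sn x.1 ≤ s + t1F η e N) ∧
      (∀ x, μ'.sum x ≤ m x) ∧
      (∀ x : CC d q, sn x.1 ≤ s → μ'.sum x = m x) ∧
      (∀ b, s < sn b → sn b ≤ s + t1F η e N → ∃ c : ℝ, e * L ≤ c ∧ c ≤ L ∧
        Fat D.lam η c (fun i => m (b, i) - μ'.sum (b, i)))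

/-- Removal of a thinned matching around a single centre. -/
lemma local_cut {D : Dat q} {η e : ℝ} {N s : ℕ} {L : ℝ} (hTH : THat D d η e N s L)
    (hNs : N ≤ s) (m : Cfg d q) (c : Cell d) (g : Fin q → ℤ)
    (hgood : Good D.V N s (s + t1F η e N) (red e s (s + t1F η e N) (shift c m)) g)
    (hfat : ∀ b, s < sn (b - c) → sn (b - c) ≤ s + t1F η e N + N →
      Fat D.lam (η / 4) L (fun i => m (b, i))) :
    ∃ U : Pat d q, U ∈ Tl D.V (N : ℝ) ∧ (∀ x ∈ U.support, sn (x.1 - c) ≤ s + t1F η e N) ∧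
      (d = 1 → toZ (tot (lft c s U)) - g ∈ Lat D.V) ∧ (∀ x, U x ≤ m x) ∧
      (∀ x : CC d q, sn (x.1 - c) ≤ s → U x = m x) ∧
      (∀ b, s < sn (b - c) → sn (b - c) ≤ s + t1F η e N → ∃ c' : ℝ, e * L ≤ c' ∧ c' ≤ L ∧
        Fat D.lam η c' (fun i => m (b, i) - U (b, i))) := by
  obtain ⟨μ, y, hF, hy, hsum, hcls⟩ := hgood
  obtain ⟨μ', hle, hfil, hsup, hm, heq, hring⟩ := hTH (shift c m) μ y hF hy hsum (by
    intro b hb1 hb2
    have := hfat (b + c) (by simpa using hb1) (by simpa using hb2)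
    exact this)
  have hF' : ∀ u ∈ μ', Fam D.V (N : ℝ) u := fun u hu => hF u (Multiset.mem_of_le hle hu)
  refine ⟨push (fun z => z + c) μ'.sum, ?_, ?_, ?_, ?_, ?_, ?_⟩
  · refine push_shift_mem_Tl c ?_
    exact AddSubmonoid.multiset_sum_mem _ _ (fun u hu => AddSubmonoid.subset_closure (hF' u hu))
  · intro x hx
    rw [mem_support_push_shift, Finsupp.mem_support_iff] at hx
    by_contra hgt
    apply hx
    have h1 : ∀ u ∈ μ', u (x.1 - c, x.2) = 0 := by
      intro u hu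
      by_contra h0
      exact hgt (hsup u hu (x.1 - c, x.2) (Finsupp.mem_support_iff.2 h0))
    have h2 : ∀ ν : Multiset (Pat d q), (∀ u ∈ ν, u (x.1 - c, x.2) = 0) →
        ν.sum (x.1 - c, x.2) = 0 := by
      intro ν
      induction ν using Multiset.induction_on with
      | empty => intro _; rfl
      | cons u ν ih =>
        intro hν
        rw [Multiset.sum_cons, Finsupp.add_apply, hν u (Multiset.mem_cons_self _ _),
          ih (fun v hv => hν v (Multiset.mem_cons_of_mem hv))]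
    exact h2 μ' h1
  · intro hd
    subst hd
    rw [tot_lft_push]
    have h1 := leftCls_eq hNs μ' hF'
    have h2 : leftCls s μ' = leftCls s μ := by
      unfold leftCls
      rw [hfil]
    rw [h2] at h1
    have h3 := (Lat D.V).add_mem h1 (hcls rfl)
    simpa using h3
  · intro x
    rw [push_shift_apply]
    have := hm (x.1 - c, x.2)
    simpa [shift] using this
  · intro x hx
    rw [push_shift_apply]
    have := heq (x.1 - c, x.2) hx
    simpa [shift] using this
  · intro b hb1 hb2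
    obtain ⟨c', h1, h2, h3⟩ := hring (b - c) hb1 hb2
    refine ⟨c', h1, h2, ?_⟩
    intro i
    have := h3 i
    simpa [shift, push_shift_apply] using this

/-- Conclusion of the common part. -/
structure CutData (D : Dat q) (η c₁ : ℝ) (N s T : ℕ) (Y C : Finset (Cell d)) (v : Pat d q)
    (g : Cell d → Fin q → ℤ) (U : Cell d → Pat d q) (w : Pat d q) : Prop where
  tl : ∀ c ∈ C, U c ∈ Tl D.V (N : ℝ)
  sup : ∀ c ∈ C, ∀ x ∈ (U c).support, sn (x.1 - c) ≤ T
  cls : d = 1 → ∀ c ∈ C, toZ (tot (lft c s (U c))) - g c ∈ Lat D.V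
  eq : v = w + ∑ c ∈ C, U c
  wsup : ∀ x ∈ w.support, x.1 ∈ Y ∧ ∀ c ∈ C, s < sn (x.1 - c)
  fat : ∀ b ∈ Y, (∀ c ∈ C, s < sn (b - c)) → ∃ cb, c₁ ≤ cb ∧ Fat D.lam η cb (fun i => w (b, i))

lemma cut_exists (hCLU : T_CLU) (hTH : T_TH) (d : ℕ) (D : Dat q) {η c₁ e : ℝ} {N n0 : ℕ}
    (hc₁ : 0 < c₁) (hη0 : 0 < η) (hη : η ≤ 1 / 2) (he : 0 < e) (he2 : e ≤ 1 / 2) (hN : 1 ≤ N) :
    ∃ L₀ : ℝ, ∀ L, L₀ ≤ L → ∀ (Y : Finset (Cell d)) (m : Cfg d q) (v : Pat d q)
      (ty : Cell d → Prop), (∀ x ∈ v.support, x.1 ∈ Y) →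
      (∀ b, ty b → Fat D.lam (η / 4) L (fun i => m (b, i))) →
      (Y.filter (fun b => ¬ ty b)).card ≤ n0 →
      (∀ b ∈ Y, ∀ b', b' ∉ Y → sn (b - b') ≤ KF η e N n0 → ty b) →
      (∀ b ∈ Y, (∀ b', sn (b - b') ≤ 1 → b' ∈ Y) → ∀ i, v (b, i) = m (b, i)) →
      (∀ b ∈ Y, ty b → Fat D.lam η L (fun i => v (b, i))) →
      (∀ c ∈ Y, ¬ ty c → ∀ i ≤ n0,
        (∀ b, sF η e N n0 i < sn (b - c) → sn (b - c) ≤ TF η e N n0 i + N → ty b) →
        ∀ g, Good D.V N (sF η e N n0 i) (TF η e N n0 i)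
          (red e (sF η e N n0 i) (TF η e N n0 i) (shift c m)) g) →
      ∃ i ≤ n0, ∃ C ⊆ Y, (∀ c ∈ C, ∀ b, sn (b - c) ≤ TF η e N n0 i + N + 1 → b ∈ Y) ∧
        (∀ c ∈ C, ∀ c' ∈ C, c ≠ c' → 2 * (TF η e N n0 i + N) + 1 < sn (c - c')) ∧
        ∀ g : Cell d → Fin q → ℤ, ∃ (U : Cell d → Pat d q) (w : Pat d q),
          CutData D η c₁ N (sF η e N n0 i) (TF η e N n0 i) Y C v g U w := by
  have h1 : ∀ i, ∃ L₀ : ℝ, 0 < L₀ ∧ ∀ L, L₀ ≤ L → THat D d η e N (sF η e N n0 i) L := by
    intro i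
    obtain ⟨L₀, h0, h⟩ := hTH d q D η e N (sF η e N n0 i) hη0 hη he he2 hN
    exact ⟨L₀, h0, fun L hL m μ y h1 h2 h3 h4 => h L m μ y hL h1 h2 h3 h4⟩
  choose L0 hL0 hTH' using h1
  refine ⟨c₁ / e + ∑ i ∈ Finset.range (n0 + 1), L0 i, ?_⟩
  intro L hL Y m v ty hvY htyF hcard hcollar hint htyv hgood
  obtain ⟨i, hi, C, hCA, hA1, hA2, hCC⟩ := hCLU d n0 (rhoF η e N n0) (Y.filter (fun b => ¬ ty b))
    (rhoF_mono η e N n0) hcard
  have hCY : ∀ c ∈ C, c ∈ Y ∧ ¬ ty c := fun c hc => Finset.mem_filter.1 (hCA hc)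
  have hsum0 : 0 ≤ ∑ i ∈ Finset.range (n0 + 1), L0 i := Finset.sum_nonneg fun i _ => (hL0 i).le
  have hce : 0 < c₁ / e := by positivity
  have hLi : L0 i ≤ L := by
    have := Finset.single_le_sum (f := L0) (fun i _ => (hL0 i).le)
      (Finset.mem_range.2 (Nat.lt_succ_of_le hi))
    linarith
  have hLe : c₁ ≤ e * L := by
    have : c₁ / e ≤ L := by linarith
    rw [div_le_iff₀ he] at this
    linarith
  have hLpos : 0 < L := by linarith
  have hc₁L : c₁ ≤ L := by nlinarith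
  have hTs : TF η e N n0 i = sF η e N n0 i + t1F η e N := rfl
  have hsr : sF η e N n0 i = n0 * rhoF η e N n0 i + N := rfl
  have hr := rhoF_succ η e N n0 i
  have hK : TF η e N n0 i + N + 2 ≤ KF η e N n0 := by
    have := TF_mono η e N n0 hi
    unfold KF
    omega
  rw [hr] at hA2 hCC
  have hcube : ∀ c ∈ C, ∀ b, sn (b - c) ≤ TF η e N n0 i + N + 1 → b ∈ Y := by
    intro c hc b hb
    by_contra hbY
    refine (hCY c hc).2 (hcollar c (hCY c hc).1 b hbY ?_)
    rw [sn_sub_comm]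
    omega
  have hring : ∀ c ∈ C, ∀ b, sF η e N n0 i < sn (b - c) → sn (b - c) ≤ TF η e N n0 i + N →
      ty b := by
    intro c hc b hb1 hb2
    by_contra hty
    have hbA : b ∈ Y.filter (fun b => ¬ ty b) :=
      Finset.mem_filter.2 ⟨hcube c hc b (by omega), hty⟩
    rcases hA2 b hbA c hc with h | h <;> omega
  refine ⟨i, hi, C, fun c hc => (hCY c hc).1, hcube, hCC, ?_⟩
  intro g
  have hU : ∀ c, ∃ U : Pat d q, c ∈ C → (U ∈ Tl D.V (N : ℝ) ∧
      (∀ x ∈ U.support, sn (x.1 - c) ≤ TF η e N n0 i) ∧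
      (d = 1 → toZ (tot (lft c (sF η e N n0 i) U)) - g c ∈ Lat D.V) ∧ (∀ x, U x ≤ m x) ∧
      (∀ x : CC d q, sn (x.1 - c) ≤ sF η e N n0 i → U x = m x) ∧
      (∀ b, sF η e N n0 i < sn (b - c) → sn (b - c) ≤ TF η e N n0 i → ∃ c' : ℝ,
        e * L ≤ c' ∧ c' ≤ L ∧ Fat D.lam η c' (fun i => m (b, i) - U (b, i)))) := by
    intro c
    by_cases hc : c ∈ C
    · obtain ⟨U, hU⟩ := local_cut (hTH' i L hLi) (by omega) m c (g c)
        (hgood c (hCY c hc).1 (hCY c hc).2 i hi (hring c hc) (g c))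
        (fun b hb1 hb2 => htyF b (hring c hc b hb1 hb2))
      exact ⟨U, fun _ => hU⟩
    · exact ⟨0, fun h => absurd h hc⟩
  choose U hU using hU
  -- the sum of the pieces
  have hS1 : ∀ c ∈ C, ∀ x : CC d q, sn (x.1 - c) ≤ TF η e N n0 i →
      (∑ c ∈ C, U c) x = U c x := by
    intro c hc x hx
    rw [Finsupp.finsetSum_apply]
    refine Finset.sum_eq_single c (fun c' hc' hne => ?_) (fun h => absurd hc h)
    by_contra h0
    have h2 := (hU c' hc').2.1 x (Finsupp.mem_support_iff.2 h0)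
    have h3 := hCC c hc c' hc' (Ne.symm hne)
    have h4 := sn_sub_le c x.1 c'
    rw [sn_sub_comm c x.1] at h4
    omega
  have hS0 : ∀ x : CC d q, (∀ c ∈ C, ¬ sn (x.1 - c) ≤ TF η e N n0 i) →
      (∑ c ∈ C, U c) x = 0 := by
    intro x hx
    rw [Finsupp.finsetSum_apply]
    refine Finset.sum_eq_zero fun c hc => ?_
    by_contra h0
    exact hx c hc ((hU c hc).2.1 x (Finsupp.mem_support_iff.2 h0))
  have hvm : ∀ c ∈ C, ∀ x : CC d q, sn (x.1 - c) ≤ TF η e N n0 i → v x = m x := by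
    intro c hc x hx
    refine hint x.1 (hcube c hc x.1 (by omega)) (fun b' hb' => hcube c hc b' ?_) x.2
    have h4 := sn_sub_le b' x.1 c
    rw [sn_sub_comm b' x.1] at h4
    omega
  have hSv : (∑ c ∈ C, U c) ≤ v := by
    intro x
    by_cases h : ∃ c ∈ C, sn (x.1 - c) ≤ TF η e N n0 i
    · obtain ⟨c, hc, hx⟩ := h
      rw [hS1 c hc x hx, hvm c hc x hx]
      exact (hU c hc).2.2.2.1 x
    · push Not at h
      rw [hS0 x (fun c hc => by have := h c hc; omega)]
      exact Nat.zero_le _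
  refine ⟨U, v - ∑ c ∈ C, U c, ⟨fun c hc => (hU c hc).1, fun c hc => (hU c hc).2.1,
    fun hd c hc => (hU c hc).2.2.1 hd, (tsub_add_cancel_of_le hSv).symm, ?_, ?_⟩⟩
  · intro x hx
    rw [Finsupp.mem_support_iff, Finsupp.tsub_apply] at hx
    refine ⟨hvY x (Finsupp.mem_support_iff.2 (by omega)), fun c hc => ?_⟩
    by_contra h
    push Not at h
    have h2 := hS1 c hc x (by omega)
    have h3 := hvm c hc x (by omega)
    have h4 := (hU c hc).2.2.2.2.1 x h
    omega
  · intro b hb hbC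
    by_cases h : ∃ c ∈ C, sn (b - c) ≤ TF η e N n0 i
    · obtain ⟨c, hc, hx⟩ := h
      obtain ⟨c', h1, h2, h3⟩ := (hU c hc).2.2.2.2.2 b (hbC c hc) hx
      refine ⟨c', hLe.trans h1, ?_⟩
      intro j
      have h4 := hS1 c hc (b, j) hx
      have h5 := hvm c hc (b, j) hx
      have h6 := h3 j
      have h7 : (v - ∑ c ∈ C, U c) (b, j) = m (b, j) - U c (b, j) := by
        rw [Finsupp.tsub_apply, h4, h5]
      simp only [h7]
      exact h6
    · push Not at h
      refine ⟨L, hc₁L, ?_⟩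
      have hty : ty b := by
        by_contra hty
        obtain ⟨c, hc, hbc⟩ := hA1 b (Finset.mem_filter.2 ⟨hb, hty⟩)
        have := hbC c hc
        omega
      intro j
      have h4 := hS0 (b, j) (fun c hc => by have := h c hc; simp only; omega)
      have h7 : (v - ∑ c ∈ C, U c) (b, j) = v (b, j) := by
        rw [Finsupp.tsub_apply, h4, Nat.sub_zero]
      simp only [h7]
      exact htyv b hb hty j

end

end Pool.Agent.H42.MC
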