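import Pool.Agent.H96.MC.Targets2
import Pool.Agent.H42.MC.RLC

/-!
# STAGE: constants for a single value of `N` (MP_5da387_pr)
-/

namespace Pool.Agent.H42.MC

open Classical MeasureTheory ProbabilityTheory Pool.Agent.H96.MC Filter

noncomputable section

variable {q : ℕ}

/-- bound for the scales -/
def crho (N n0 : ℕ) : ℕ → ℕ
  | 0 => N
  | i + 1 => 2 * (n0 * crho N n0 i) + 4 * N + 3

lemma rhoF_le (η e : ℝ) (N n0 i : ℕ) :
    rhoF η e N n0 i ≤ crho N n0 i * (1 + t1F η e N) := by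
  induction i with
  | zero =>
    simp only [rhoF, crho]
    exact Nat.le_mul_of_pos_right _ (by omega)
  | succ i ih =>
    have h1 := Nat.mul_le_mul_left n0 ih
    simp only [rhoF, crho]
    have h2 : (2 * (n0 * crho N n0 i) + 4 * N + 3) * (1 + t1F η e N)
        = 2 * (n0 * (crho N n0 i * (1 + t1F η e N))) + 4 * N + 3
          + (4 * N + 3) * t1F η e N := by ring
    rw [h2]
    have h3 : 2 * t1F η e N ≤ (4 * N + 3) * t1F η e N := Nat.mul_le_mul_right _ (by omega)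
    omega

/-- constant in the bound of the outer radius -/
def cT2 (N n0 : ℕ) : ℕ := 2 * (n0 * crho N n0 n0 + N + 1) + 1

lemma TF_le (η e : ℝ) (N n0 i : ℕ) (hi : i ≤ n0) :
    2 * TF η e N n0 i + 1 ≤ cT2 N n0 * (1 + t1F η e N) := by
  refine le_trans (Nat.add_le_add_right (Nat.mul_le_mul_left 2 (TF_mono η e N n0 hi)) 1) ?_
  have h1 := Nat.mul_le_mul_left n0 (rhoF_le η e N n0 n0)
  unfold TF sF cT2
  have h2 : (2 * (n0 * crho N n0 n0 + N + 1) + 1) * (1 + t1F η e N)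
      = 2 * (n0 * (crho N n0 n0 * (1 + t1F η e N))) + 2 * N + 3
        + (2 * N + 3) * t1F η e N := by ring
  rw [h2]
  have h3 : 2 * t1F η e N ≤ (2 * N + 3) * t1F η e N := Nat.mul_le_mul_right _ (by omega)
  omega

lemma t1F_le {η y : ℝ} (hη : 0 < η) (hy : 0 ≤ y) (N : ℕ) :
    ((t1F η (Real.exp (-y)) N : ℕ) : ℝ) ≤ (N : ℝ) * (3 + 4 / η) * (1 + y) := by
  have h1 : Real.log (1 / Real.exp (-y)) = y := by
    rw [one_div, ← Real.exp_neg, neg_neg, Real.log_exp]
  unfold t1F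
  rw [h1]
  have h2 : (⌈4 / η * y⌉₊ : ℝ) ≤ 4 / η * y + 1 := by
    have := Nat.ceil_lt_add_one (show 0 ≤ 4 / η * y by positivity)
    exact this.le
  push_cast
  have h3 : (0 : ℝ) ≤ N := Nat.cast_nonneg _
  have h4 : (2 : ℝ) + (⌈4 / η * y⌉₊ : ℝ) ≤ (3 + 4 / η) * (1 + y) := by
    have h5 : (3 + 4 / η) * (1 + y) = 3 + 3 * y + 4 / η + 4 / η * y := by ring
    rw [h5]
    have h6 : 0 ≤ 4 / η := by positivity
    linarith
  calc (N : ℝ) * (2 + (⌈4 / η * y⌉₊ : ℝ)) ≤ N * ((3 + 4 / η) * (1 + y)) := by gcongr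
    _ = _ := by ring

/-- choice of the reduction factor -/
lemma exists_e {η : ℝ} (hη : 0 < η) (d N n0 : ℕ) (Λ : ℝ) (hΛ : 0 ≤ Λ) :
    ∃ e : ℝ, 0 < e ∧ e ≤ 1 / 2 ∧ ∀ i ≤ n0, e * (2 * (TF η e N n0 i : ℝ) + 1) ^ d * Λ ≤ 1 := by
  obtain ⟨K, hK⟩ : ∃ K : ℝ, K = (cT2 N n0 : ℝ) * (1 + N * (3 + 4 / η)) := ⟨_, rfl⟩
  have hK0 : 0 ≤ K := by rw [hK]; positivity
  have ht := (Real.tendsto_pow_mul_exp_neg_atTop_nhds_zero d).const_mul (K ^ d * Λ * Real.exp 1)
  rw [mul_zero] at ht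
  have hev := (ht.eventually (gt_mem_nhds (show (0 : ℝ) < 1 by norm_num))).and
    (eventually_ge_atTop (2 : ℝ))
  obtain ⟨z, hz1, hz2⟩ := hev.exists
  refine ⟨Real.exp (-(z - 1)), Real.exp_pos _, ?_, ?_⟩
  · have h1 : (2 : ℝ) ≤ Real.exp (z - 1) := by
      have := Real.add_one_le_exp (z - 1)
      linarith
    rw [Real.exp_neg]
    rw [inv_eq_one_div]
    exact one_div_le_one_div_of_le (by norm_num) h1
  · intro i hi
    have h1 := TF_le η (Real.exp (-(z - 1))) N n0 i hi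
    have h2 := t1F_le hη (show 0 ≤ z - 1 by linarith) N
    have h3 : (2 * (TF η (Real.exp (-(z - 1))) N n0 i : ℝ) + 1) ≤ K * z := by
      have h4 : (2 * (TF η (Real.exp (-(z - 1))) N n0 i : ℝ) + 1)
          ≤ (cT2 N n0 : ℝ) * (1 + (t1F η (Real.exp (-(z - 1))) N : ℝ)) := by
        exact_mod_cast h1
      refine h4.trans ?_
      rw [hK, mul_assoc]
      have h5 : (1 : ℝ) + (t1F η (Real.exp (-(z - 1))) N : ℝ) ≤ (1 + N * (3 + 4 / η)) * z := by
        have h6 : (1 + N * (3 + 4 / η)) * z = z + N * (3 + 4 / η) * (1 + (z - 1)) := by ring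
        rw [h6]
        linarith
      gcongr
    have h7 : (2 * (TF η (Real.exp (-(z - 1))) N n0 i : ℝ) + 1) ^ d ≤ (K * z) ^ d := by gcongr
    calc Real.exp (-(z - 1)) * (2 * (TF η (Real.exp (-(z - 1))) N n0 i : ℝ) + 1) ^ d * Λ
        ≤ Real.exp (-(z - 1)) * (K * z) ^ d * Λ := by gcongr
      _ = K ^ d * Λ * Real.exp 1 * (z ^ d * Real.exp (-z)) := by
          have : Real.exp (-(z - 1)) = Real.exp 1 * Real.exp (-z) := by
            rw [← Real.exp_add]; congr 1; ring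
          rw [this, mul_pow]; ring
      _ ≤ 1 := hz1.le

/-- the rates of the windows -/
lemma rate_ge (h7 : T_POSA) {d : ℕ} (D : Dat q) (hd : 1 ≤ d) {N s T : ℕ} (hadm : Adm D d N s T) :
    aconst D d * ((N : ℝ) - d) ^ d ≤ wrate D d N s T := by
  obtain ⟨c, hc, hc'⟩ := h7 d q D hd
  have hpos : ∀ N s T, Adm D d N s T → 0 < ((N : ℝ) - d) ^ d := by
    intro N s T h
    have h1 : (d : ℝ) + 2 ≤ N := by exact_mod_cast h.1
    exact pow_pos (by linarith) _
  have hbdd : BddBelow {a | ∃ N s T, Adm D d N s T ∧ a = wrate D d N s T / ((N : ℝ) - d) ^ d} := by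
    refine ⟨c, ?_⟩
    rintro a ⟨N, s, T, h1, rfl⟩
    rw [le_div_iff₀ (hpos N s T h1)]
    exact hc' N s T h1
  have h1 : aconst D d ≤ wrate D d N s T / ((N : ℝ) - d) ^ d :=
    csInf_le hbdd ⟨N, s, T, hadm, rfl⟩
  rwa [le_div_iff₀ (hpos N s T hadm)] at h1

/-- STAGE. -/
theorem stage (h1 : T_RL2) (h2 : T_RL1) (h3 : T_SEMI) (h4 : T_LIM) (h5 : T_ZNE) (h6 : T_RB)
    (h7 : T_POSA) : T_STAGE := by
  intro d q D η c₁ cT hd hAL hcT
  have hη0 : 0 < η := hAL.1
  have hη : η ≤ 1 / 2 := hAL.2.1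
  have key : ∀ N : ℕ, ∃ (n0 : ℕ) (e : ℝ) (lst : ℕ), d + 2 ≤ N →
      2 * (aconst D d + 1) * ((N : ℝ) + d + 1) ^ d ≤ cT * (n0 + 1) ∧
      ∀ l : ℕ, lst ≤ l →
      RLok D d η N n0 e (sF η e N n0) (TF η e N n0) (KF η e N n0) ((l : ℝ) ^ d) ∧
      ∀ i ≤ n0, poisL D d ((l : ℝ) ^ d)
          (RBs D d η N (sF η e N n0 i) (TF η e N n0 i) e ((l : ℝ) ^ d)) ≤
        ENNReal.ofReal (Real.exp (-((aconst D d * ((N : ℝ) - d) ^ d - 3) * (l : ℝ) ^ d))) := by
    intro N
    by_cases hN : d + 2 ≤ N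
    swap
    · exact ⟨0, 0, 0, fun h => absurd h hN⟩
    obtain ⟨n0, hn0⟩ := exists_nat_ge (2 * (aconst D d + 1) * ((N : ℝ) + d + 1) ^ d / cT)
    have hΛ : 0 ≤ ∑ i, D.lam i := Finset.sum_nonneg fun i _ => (D.pos i).le
    obtain ⟨e, he, he2, heT⟩ := exists_e hη0 d N n0 (∑ i, D.lam i) hΛ
    -- region lemma
    have hRL : ∃ L₀ : ℝ, ∀ L : ℝ, L₀ ≤ L →
        RLok D d η N n0 e (sF η e N n0) (TF η e N n0) (KF η e N n0) L := by
      rcases Nat.lt_or_ge d 2 with h | h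
      · have hd1 : d = 1 := by omega
        subst hd1
        exact h2 q D η c₁ e N n0 hAL he he2 (by omega)
      · exact h1 d q D η c₁ e N n0 h hAL he he2 (by omega)
    obtain ⟨L₀, hL₀⟩ := hRL
    -- windows
    have hwin : ∀ i, ∀ᶠ L : ℕ in atTop, poisL D d (L : ℝ)
          (RBs D d η N (sF η e N n0 i) (TF η e N n0 i) e (L : ℝ)) ≤
        ENNReal.ofReal (Real.exp (-((aconst D d * ((N : ℝ) - d) ^ d - 3) * (L : ℝ)))) ∨ n0 < i := by
      intro i
      by_cases hi : i ≤ n0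
      swap
      · exact Eventually.of_forall fun L => Or.inr (by omega)
      obtain ⟨s, hs⟩ : ∃ s, s = sF η e N n0 i := ⟨_, rfl⟩
      obtain ⟨T, hT⟩ : ∃ T, T = TF η e N n0 i := ⟨_, rfl⟩
      have hNs : N ≤ s := by rw [hs]; unfold sF; omega
      have hsT : s ≤ T := by rw [hs, hT]; unfold TF; omega
      have hadm : Adm D d N s T := ⟨hN, hNs, hsT, h5 d q D N s T⟩
      have hrate := rate_ge h7 D hd hadm
      have hlim := h4 (win d q (T + N)) inferInstance (fun x => D.lam x.1.2) (ZBad d D.V N s T)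
        (fun x => D.pos _) (h3 d q D N s T hNs hsT) (h5 d q D N s T)
      have hev := hlim.eventually (lt_mem_nhds (show
        rate (fun x : win d q (T + N) => D.lam x.1.2) (ZBad d D.V N s T) - 1 <
          rate (fun x : win d q (T + N) => D.lam x.1.2) (ZBad d D.V N s T) by linarith))
      have h2pow : ∀ᶠ L : ℕ in atTop, (2 : ℝ) ^ ((2 * T + 1) ^ d * q) ≤ Real.exp (L : ℝ) := by
        have := (Real.tendsto_exp_atTop.comp tendsto_natCast_atTop_atTop).eventually_ge_atTop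
          ((2 : ℝ) ^ ((2 * T + 1) ^ d * q))
        exact this
      rw [← hs, ← hT]
      filter_upwards [hev, h2pow, eventually_ge_atTop 1] with L hL1 hL2 hL3
      left
      have hLpos : (1 : ℝ) ≤ L := by exact_mod_cast hL3
      refine (h6 d q D η e L N s T hη0 hη he.le he2 hLpos).trans (ENNReal.ofReal_le_ofReal ?_)
      have hPL : PL (fun x : win d q (T + N) => D.lam x.1.2) L (ZBad d D.V N s T)
          ≤ Real.exp (-((aconst D d * ((N : ℝ) - d) ^ d - 1) * (L : ℝ))) := by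
        rcases le_or_gt (PL (fun x : win d q (T + N) => D.lam x.1.2) L (ZBad d D.V N s T)) 0
          with h0 | h0
        · exact h0.trans (Real.exp_pos _).le
        · rw [← Real.log_le_iff_le_exp h0]
          rw [lt_div_iff₀ (by linarith)] at hL1
          have hw : wrate D d N s T
              = rate (fun x : win d q (T + N) => D.lam x.1.2) (ZBad d D.V N s T) := rfl
          rw [hw] at hrate
          nlinarith
      have hexp : Real.exp (e * (2 * (T : ℝ) + 1) ^ d * (∑ i, D.lam i) * L) ≤ Real.exp (L : ℝ) := by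
        refine Real.exp_le_exp.2 ?_
        have := heT i hi
        rw [← hT] at this
        nlinarith
      calc (2 : ℝ) ^ ((2 * T + 1) ^ d * q)
            * Real.exp (e * (2 * (T : ℝ) + 1) ^ d * (∑ i, D.lam i) * L)
            * PL (fun x : win d q (T + N) => D.lam x.1.2) L (ZBad d D.V N s T)
          ≤ (2 : ℝ) ^ ((2 * T + 1) ^ d * q)
            * Real.exp (e * (2 * (T : ℝ) + 1) ^ d * (∑ i, D.lam i) * L)
            * Real.exp (-((aconst D d * ((N : ℝ) - d) ^ d - 1) * (L : ℝ))) := by gcongr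
        _ ≤ Real.exp (L : ℝ) * Real.exp (L : ℝ)
            * Real.exp (-((aconst D d * ((N : ℝ) - d) ^ d - 1) * (L : ℝ))) := by gcongr
        _ = Real.exp (-((aconst D d * ((N : ℝ) - d) ^ d - 3) * (L : ℝ))) := by
            rw [← Real.exp_add, ← Real.exp_add]
            congr 1
            ring
    have hall : ∀ᶠ L : ℕ in atTop, ∀ i ∈ Finset.range (n0 + 1), poisL D d (L : ℝ)
          (RBs D d η N (sF η e N n0 i) (TF η e N n0 i) e (L : ℝ)) ≤
        ENNReal.ofReal (Real.exp (-((aconst D d * ((N : ℝ) - d) ^ d - 3) * (L : ℝ)))) ∨ n0 < i :=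
      (Filter.eventually_all_finset _).2 fun i _ => hwin i
    have hpow : Tendsto (fun l : ℕ => l ^ d) atTop atTop := tendsto_pow_atTop (by omega)
    have hfin : ∀ᶠ l : ℕ in atTop,
        RLok D d η N n0 e (sF η e N n0) (TF η e N n0) (KF η e N n0) ((l : ℝ) ^ d) ∧
        ∀ i ≤ n0, poisL D d ((l : ℝ) ^ d)
          (RBs D d η N (sF η e N n0 i) (TF η e N n0 i) e ((l : ℝ) ^ d)) ≤
        ENNReal.ofReal (Real.exp (-((aconst D d * ((N : ℝ) - d) ^ d - 3) * (l : ℝ) ^ d))) := by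
      have hcast : ∀ᶠ l : ℕ in atTop, L₀ ≤ ((l ^ d : ℕ) : ℝ) :=
        (tendsto_natCast_atTop_atTop.comp hpow).eventually_ge_atTop L₀
      filter_upwards [hpow.eventually hall, hcast] with l hl1 hl2
      rw [Nat.cast_pow] at hl2
      refine ⟨hL₀ _ hl2, fun i hi => ?_⟩
      have h8 := (hl1 i (Finset.mem_range.2 (by omega))).resolve_right (by omega)
      rw [Nat.cast_pow] at h8
      exact h8
    obtain ⟨lst, hlst⟩ := eventually_atTop.1 hfin
    refine ⟨n0, e, lst, fun _ => ⟨?_, hlst⟩⟩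
    rw [div_le_iff₀ hcT] at hn0
    nlinarith
  choose n0 e lst hkey using key
  exact ⟨n0, e, lst, hkey⟩

end

end Pool.Agent.H42.MC
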