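import Pool.Agent.H96.MC.Targets

/-!
# TH: thinning of a matching of a window (MP_5da387_pr)
-/

namespace Pool.Agent.H42.MC

open Classical MeasureTheory ProbabilityTheory Pool.Agent.H96.MC

noncomputable section

variable {d q : ℕ}

/-! ### the profile -/

/-- the profile `ψ` -/
def psi (η e : ℝ) (N t : ℕ) : ℝ := min 1 (e * Real.exp (η / 4 * ((t : ℝ) / N)))

lemma psi_le_one (η e : ℝ) (N t : ℕ) : psi η e N t ≤ 1 := min_le_left _ _

lemma psi_ge {η e : ℝ} {N t : ℕ} (hη : 0 ≤ η) (he : 0 < e) (he1 : e ≤ 1) : e ≤ psi η e N t := by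
  refine le_min he1 ?_
  have h1 : (1 : ℝ) ≤ Real.exp (η / 4 * ((t : ℝ) / N)) := Real.one_le_exp (by positivity)
  nlinarith

lemma psi_mono {η e : ℝ} {N : ℕ} (hη : 0 ≤ η) (he : 0 < e) {t t' : ℕ} (h : t ≤ t') :
    psi η e N t ≤ psi η e N t' := by
  refine min_le_min le_rfl ?_
  have h1 : (t : ℝ) ≤ t' := by exact_mod_cast h
  gcongr

lemma psi_add {η e : ℝ} {N : ℕ} (hη : 0 ≤ η) (he : 0 < e) (hN : 1 ≤ N) (t : ℕ) :
    psi η e N (t + N) ≤ Real.exp (η / 4) * psi η e N t := by
  have hN' : (0 : ℝ) < N := by exact_mod_cast hN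
  have h1 : Real.exp (η / 4 * (((t + N : ℕ) : ℝ) / N))
      = Real.exp (η / 4) * Real.exp (η / 4 * ((t : ℝ) / N)) := by
    rw [← Real.exp_add]
    congr 1
    push_cast
    field_simp
    ring
  have h2 : (1 : ℝ) ≤ Real.exp (η / 4) := Real.one_le_exp (by positivity)
  unfold psi
  rw [h1]
  rcases le_total (1 : ℝ) (e * Real.exp (η / 4 * ((t : ℝ) / N))) with h3 | h3
  · rw [min_eq_left h3, mul_one]
    exact (min_le_left _ _).trans h2
  · rw [min_eq_right h3]
    refine (min_le_right _ _).trans (le_of_eq ?_)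
    ring

lemma psi_eq_one {η e : ℝ} {N : ℕ} (hη : 0 < η) (he : 0 < e) (hN : 1 ≤ N) {t : ℕ}
    (h : N * ⌈(4 / η) * Real.log (1 / e)⌉₊ ≤ t) : psi η e N t = 1 := by
  have hN' : (0 : ℝ) < N := by exact_mod_cast hN
  unfold psi
  refine min_eq_left ?_
  have h1 : (N : ℝ) * ((4 / η) * Real.log (1 / e)) ≤ t := by
    calc (N : ℝ) * ((4 / η) * Real.log (1 / e))
        ≤ (N : ℝ) * (⌈(4 / η) * Real.log (1 / e)⌉₊ : ℝ) := by
          gcongr; exact Nat.le_ceil _
      _ ≤ t := by exact_mod_cast h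
  have h2 : Real.log (1 / e) ≤ η / 4 * ((t : ℝ) / N) := by
    have h3 : η / 4 * ((t : ℝ) / N) = (η / 4 / N) * t := by ring
    rw [h3]
    calc Real.log (1 / e) = (η / 4 / N) * ((N : ℝ) * ((4 / η) * Real.log (1 / e))) := by
          field_simp
      _ ≤ (η / 4 / N) * t := by gcongr
  have h3 : 1 / e ≤ Real.exp (η / 4 * ((t : ℝ) / N)) := by
    rw [← Real.exp_log (show 0 < 1 / e by positivity)]
    exact Real.exp_le_exp.2 h2
  calc (1 : ℝ) = e * (1 / e) := by field_simp
    _ ≤ _ := by gcongr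

lemma psi_le {η e : ℝ} {N : ℕ} (hη : 0 ≤ η) (he : 0 < e) (hN : 1 ≤ N) {t : ℕ} (h : t ≤ N) :
    psi η e N t ≤ e * Real.exp (η / 4) := by
  have hN' : (0 : ℝ) < N := by exact_mod_cast hN
  refine (min_le_right _ _).trans ?_
  have h1 : (t : ℝ) / N ≤ 1 := by
    rw [div_le_one hN']; exact_mod_cast h
  have h2 : η / 4 * ((t : ℝ) / N) ≤ η / 4 := by
    have : 0 ≤ η / 4 := by positivity
    nlinarith
  gcongr

/-- the profile `φ` -/
def phi (η e : ℝ) (N t : ℕ) : ℝ := (psi η e N t - e) / (1 - e)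

lemma phi_mul {η e : ℝ} {N t : ℕ} (he1 : e < 1) : phi η e N t * (1 - e) = psi η e N t - e := by
  unfold phi
  have : 1 - e ≠ 0 := by linarith
  field_simp

lemma phi_nonneg {η e : ℝ} {N t : ℕ} (hη : 0 ≤ η) (he : 0 < e) (he1 : e < 1) :
    0 ≤ phi η e N t :=
  div_nonneg (sub_nonneg.2 (psi_ge hη he he1.le)) (by linarith)

lemma phi_le_one {η e : ℝ} {N t : ℕ} (he1 : e < 1) : phi η e N t ≤ 1 := by
  unfold phi
  rw [div_le_one (by linarith)]
  linarith [psi_le_one η e N t]

lemma phi_mono {η e : ℝ} {N : ℕ} (hη : 0 ≤ η) (he : 0 < e) (he1 : e < 1) {t t' : ℕ}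
    (h : t ≤ t') : phi η e N t ≤ phi η e N t' := by
  unfold phi
  have := psi_mono (N := N) hη he h
  have h2 : 0 < 1 - e := by linarith
  gcongr

lemma phi_eq_one {η e : ℝ} {N : ℕ} (hη : 0 < η) (he : 0 < e) (he1 : e < 1) (hN : 1 ≤ N) {t : ℕ}
    (h : N * ⌈(4 / η) * Real.log (1 / e)⌉₊ ≤ t) : phi η e N t = 1 := by
  unfold phi
  rw [psi_eq_one hη he hN h, div_self]
  linarith

/-! ### multisets -/

lemma exists_le_count {α : Type*} [DecidableEq α] (μ : Multiset α) (k : α → ℕ)
    (h : ∀ u, k u ≤ μ.count u) : ∃ μ' ≤ μ, ∀ u, μ'.count u = k u := by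
  have h0 : ∀ a, k a ≠ 0 → a ∈ μ.toFinset := by
    intro a ha
    rw [Multiset.mem_toFinset, ← Multiset.count_pos]
    have := h a
    omega
  have h1 : ∀ u, (Finsupp.toMultiset (Finsupp.onFinset μ.toFinset k h0)).count u = k u := by
    intro u
    rw [Finsupp.count_toMultiset]
    rfl
  exact ⟨_, Multiset.le_iff_count.2 fun u => by rw [h1]; exact h u, h1⟩

lemma sum_apply_of_le {μ' μ : Multiset (Pat d q)} (h : μ' ≤ μ) (x : CC d q) :
    μ'.sum x = ∑ u ∈ μ.toFinset, μ'.count u * u x := by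
  rw [Finset.sum_multiset_count_of_subset μ' μ.toFinset
    (Multiset.toFinset_subset.2 (Multiset.subset_of_le h)), Finsupp.finsetSum_apply]
  refine Finset.sum_congr rfl fun u _ => ?_
  rw [Finsupp.smul_apply, smul_eq_mul]

lemma le_sum_of_mem {μ : Multiset (Pat d q)} {u : Pat d q} (hu : u ∈ μ) (x : CC d q) :
    u x ≤ μ.sum x := by
  rw [sum_apply_of_le le_rfl]
  refine le_trans ?_ (Finset.single_le_sum (f := fun u => μ.count u * u x)
    (fun _ _ => Nat.zero_le _) (Multiset.mem_toFinset.2 hu))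
  exact Nat.le_mul_of_pos_left _ (Multiset.count_pos.2 hu)

lemma le_tot (u : Pat d q) (x : CC d q) : u x ≤ tot u x.2 := by
  unfold tot Finsupp.sum
  by_cases hx : x ∈ u.support
  · refine le_trans ?_ (Finset.single_le_sum (f := fun a => if a.2 = x.2 then u a else 0)
      (fun _ _ => Nat.zero_le _) hx)
    simp
  · rw [Finsupp.notMem_support_iff.1 hx]
    exact Nat.zero_le _

/-! ### geometry of families -/

lemma sn_le_of_fam {V : Finset (Fin q → ℕ)} {N : ℕ} {u : Pat d q} (hu : Fam V (N : ℝ) u)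
    {x y : CC d q} (hx : x ∈ u.support) (hy : y ∈ u.support) : sn x.1 ≤ sn y.1 + N := by
  have h1 := hu.2.2 x hx y hy
  have h2 : sn (x.1 - y.1) ≤ N := by
    have := (sn_le_nrm (x.1 - y.1)).trans h1
    exact_mod_cast this
  have h3 := sn_add_le (x.1 - y.1) y.1
  rw [sub_add_cancel] at h3
  omega

/-- the largest norm of a cell of the pattern -/
def mx (u : Pat d q) : ℕ := u.support.sup (fun x => sn x.1)

lemma le_mx {u : Pat d q} {x : CC d q} (hx : x ∈ u.support) : sn x.1 ≤ mx u :=
  Finset.le_sup (f := fun x : CC d q => sn x.1) hx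

lemma mx_le_of_fam {V : Finset (Fin q → ℕ)} {N : ℕ} {u : Pat d q} (hu : Fam V (N : ℝ) u)
    {x : CC d q} (hx : x ∈ u.support) : mx u ≤ sn x.1 + N :=
  Finset.sup_le fun _ hy => sn_le_of_fam hu hy hx

/-- patterns touching the inner cube -/
def Tch (s : ℕ) (u : Pat d q) : Prop := ∃ x ∈ u.support, sn x.1 ≤ s

/-! ### the number of kept copies -/

/-- number of kept copies -/
def kept (η e : ℝ) (N s : ℕ) (μ : Multiset (Pat d q)) (u : Pat d q) : ℕ :=
  if Tch s u then μ.count u else ⌊(1 - phi η e N (mx u - s)) * (μ.count u : ℝ)⌋₊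

lemma kept_le {η e : ℝ} {N s : ℕ} (hη : 0 ≤ η) (he : 0 < e) (he1 : e < 1)
    (μ : Multiset (Pat d q)) (u : Pat d q) : kept η e N s μ u ≤ μ.count u := by
  unfold kept
  split_ifs with h
  · exact le_rfl
  · refine Nat.floor_le_of_le ?_
    have := phi_nonneg (N := N) (t := mx u - s) hη he he1
    have h2 : (0 : ℝ) ≤ (μ.count u : ℝ) := Nat.cast_nonneg _
    nlinarith

/-- upper bound for the number of removed copies -/
lemma removed_le {η e : ℝ} {N s : ℕ} (hη : 0 ≤ η) (he : 0 < e) (he1 : e < 1)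
    (μ : Multiset (Pat d q)) (u : Pat d q) {t : ℕ} (ht : mx u - s ≤ t) :
    (μ.count u : ℝ) - kept η e N s μ u ≤ phi η e N t * (μ.count u : ℝ) + 1 := by
  have h0 := phi_nonneg (N := N) (t := t) hη he he1
  have h2 : (0 : ℝ) ≤ (μ.count u : ℝ) := Nat.cast_nonneg _
  unfold kept
  split_ifs with h
  · nlinarith
  · have h3 := Nat.lt_floor_add_one ((1 - phi η e N (mx u - s)) * (μ.count u : ℝ))
    have h4 := phi_mono (N := N) hη he he1 ht
    nlinarith

/-- lower bound for the number of removed copies -/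
lemma removed_ge {η e : ℝ} {N s : ℕ} (hη : 0 ≤ η) (he : 0 < e) (he1 : e < 1)
    (μ : Multiset (Pat d q)) (u : Pat d q) {t : ℕ} (hu : ¬ Tch s u) (ht : t ≤ mx u - s) :
    phi η e N t * (μ.count u : ℝ) ≤ (μ.count u : ℝ) - kept η e N s μ u := by
  have h2 : (0 : ℝ) ≤ (μ.count u : ℝ) := Nat.cast_nonneg _
  unfold kept
  rw [if_neg hu]
  have h5 : 0 ≤ 1 - phi η e N (mx u - s) := by linarith [phi_le_one (η := η) (N := N) (t := mx u - s) he1]
  have h3 := Nat.floor_le (mul_nonneg h5 h2)
  have h4 := phi_mono (N := N) hη he he1 ht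
  nlinarith

/-! ### numerical part -/

lemma exp_mul_le {x : ℝ} (h0 : 0 ≤ x) (h1 : x ≤ 1 / 8) : Real.exp x * (1 + x) ≤ 1 + 2.4 * x := by
  have h2 := Real.abs_exp_sub_one_sub_id_le (x := x) (by rw [abs_of_nonneg h0]; linarith)
  have h3 : Real.exp x ≤ 1 + x + x ^ 2 := by
    have := (abs_le.1 h2).2
    linarith
  have h4 : Real.exp x * (1 + x) ≤ (1 + x + x ^ 2) * (1 + x) := by gcongr
  nlinarith [mul_nonneg h0 h0, mul_nonneg (mul_nonneg h0 h0) h0]

lemma one_sub_le_exp_neg {x : ℝ} : 1 - x ≤ Real.exp (-x) := by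
  have := Real.add_one_le_exp (-x)
  linarith

/-- The final estimate. `ps` is `ψ(t)`, `ps'` is `ψ(t + N)`. -/
lemma final_est {η e L M l C ps Lf : ℝ} (hη : 0 < η) (hη2 : η ≤ 1 / 2)
    (he : 0 < e) (hl : 0 < l) (hL : 0 < L) (hC : 0 ≤ C)
    (hM : |M - L * l| ≤ (η / 4) * L * l) (hps1 : e ≤ ps)
    (hup : Lf ≤ Real.exp (η / 4) * ps * M + 1 + C)
    (hlo : Real.exp (-(η / 4)) * ps * M - 1 ≤ Lf)
    (hL0 : 1 + C ≤ 0.4 * η * e * L * l) :
    |Lf - ps * L * l| ≤ η * (ps * L) * l := by
  have hps : 0 < ps := lt_of_lt_of_le he hps1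
  obtain ⟨hM1, hM2⟩ := abs_le.1 hM
  have hLl : 0 < L * l := mul_pos hL hl
  have hcl : 0 < ps * L * l := by positivity
  have hkey : 1 + C ≤ 0.4 * η * (ps * L * l) := by
    calc 1 + C ≤ 0.4 * η * e * L * l := hL0
      _ = 0.4 * η * (e * (L * l)) := by ring
      _ ≤ 0.4 * η * (ps * (L * l)) := by gcongr
      _ = _ := by ring
  rw [abs_le]
  constructor
  · have h1 : (1 - η / 4) * (L * l) ≤ M := by nlinarith
    have h2 : 1 - η / 4 ≤ Real.exp (-(η / 4)) := one_sub_le_exp_neg
    have h3 : (1 - η / 4) * ps * ((1 - η / 4) * (L * l)) ≤ Real.exp (-(η / 4)) * ps * M := by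
      have h5 : 0 ≤ 1 - η / 4 := by linarith
      have h6 : 0 ≤ (1 - η / 4) * (L * l) := by positivity
      gcongr
    have h4 : (1 - η / 2) * (ps * L * l) ≤ (1 - η / 4) * ps * ((1 - η / 4) * (L * l)) := by
      have : (1 - η / 4) * ps * ((1 - η / 4) * (L * l)) - (1 - η / 2) * (ps * L * l)
          = (η / 4) ^ 2 * (ps * L * l) := by ring
      have h7 : 0 ≤ (η / 4) ^ 2 * (ps * L * l) := by positivity
      linarith
    have h8 : 1 ≤ 0.5 * η * (ps * L * l) := by nlinarith
    nlinarith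
  · have h1 : M ≤ (1 + η / 4) * (L * l) := by nlinarith
    have h2 := exp_mul_le (x := η / 4) (by positivity) (by linarith)
    have h3 : Real.exp (η / 4) * ps * M ≤ Real.exp (η / 4) * ps * ((1 + η / 4) * (L * l)) := by
      gcongr
    have h4 : Real.exp (η / 4) * ps * ((1 + η / 4) * (L * l))
        = (Real.exp (η / 4) * (1 + η / 4)) * (ps * L * l) := by ring
    have h5 : (Real.exp (η / 4) * (1 + η / 4)) * (ps * L * l)
        ≤ (1 + 2.4 * (η / 4)) * (ps * L * l) := by gcongr
    nlinarith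

/-! ### the number of different patterns -/

lemma count_bound (d q : ℕ) (V : Finset (Fin q → ℕ)) (N T' : ℕ) : ∃ C0 : ℕ,
    ∀ μ : Multiset (Pat d q), (∀ u ∈ μ, Fam V (N : ℝ) u) →
      (∀ x : CC d q, x.1 ∉ cube 0 T' → μ.sum x = 0) → ∀ x, ∑ u ∈ μ.toFinset, u x ≤ C0 := by
  set W : Finset (CC d q) := cube 0 T' ×ˢ Finset.univ with hW
  set vm : ℕ := V.sup (fun v => Finset.univ.sup v) with hvm
  set U : Finset (Pat d q) := Finset.finsupp W (fun _ => Finset.range (vm + 1)) with hU
  refine ⟨∑ u ∈ U, ∑ x ∈ W, u x, ?_⟩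
  intro μ hF hS x
  have h1 : ∀ u ∈ μ, u.support ⊆ W := by
    intro u hu z hz
    by_contra hzW
    have h2 : z.1 ∉ cube 0 T' := fun h => hzW (Finset.mem_product.2 ⟨h, Finset.mem_univ _⟩)
    have h3 := le_sum_of_mem hu z
    rw [hS z h2] at h3
    exact (Finsupp.mem_support_iff.1 hz) (Nat.le_zero.1 h3)
  have h2 : μ.toFinset ⊆ U := by
    intro u hu
    rw [Multiset.mem_toFinset] at hu
    rw [hU, Finset.mem_finsupp_iff]
    refine ⟨h1 u hu, fun z _ => ?_⟩
    rw [Finset.mem_range, Nat.lt_succ_iff]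
    refine (le_tot u z).trans ?_
    have h4 : tot u z.2 ≤ Finset.univ.sup (tot u) :=
      Finset.le_sup (f := tot u) (Finset.mem_univ z.2)
    exact h4.trans (Finset.le_sup (f := fun v : Fin q → ℕ => Finset.univ.sup v) (hF u hu).2.1)
  by_cases hx : x ∈ W
  · calc ∑ u ∈ μ.toFinset, u x ≤ ∑ u ∈ U, u x :=
          Finset.sum_le_sum_of_subset h2
      _ ≤ ∑ u ∈ U, ∑ x ∈ W, u x := Finset.sum_le_sum fun u _ =>
          Finset.single_le_sum (f := fun x => u x) (fun _ _ => Nat.zero_le _) hx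
  · rw [Finset.sum_eq_zero]
    · exact Nat.zero_le _
    · intro u hu
      rw [Multiset.mem_toFinset] at hu
      by_contra h0
      exact hx (h1 u hu (Finsupp.mem_support_iff.2 h0))

lemma red_le (e : ℝ) (s T : ℕ) (m : Cfg d q) (x : CC d q) : red e s T m x ≤ m x := by
  unfold red
  split_ifs
  · exact Nat.sub_le _ _
  · exact le_rfl

/-- TH. -/
theorem th : T_TH := by
  intro d q D η e N s hη hη2 he he2 hN
  obtain ⟨C0, hC0⟩ := count_bound d q D.V N (s + t1F η e N + N)
  have hlam := D.pos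
  refine ⟨1 + ∑ i, (1 + (C0 : ℝ)) / (0.4 * η * e * D.lam i), ?_, ?_⟩
  · have : 0 ≤ ∑ i, (1 + (C0 : ℝ)) / (0.4 * η * e * D.lam i) :=
      Finset.sum_nonneg fun i _ => by have := hlam i; positivity
    linarith
  intro L m μ y hL hF hy hsum hfat
  have he1 : e < 1 := by linarith
  obtain ⟨μ', hle, hcount⟩ := exists_le_count μ (kept η e N s μ) (kept_le hη.le he he1 μ)
  have hL1 : 1 ≤ L := by
    have : 0 ≤ ∑ i, (1 + (C0 : ℝ)) / (0.4 * η * e * D.lam i) :=
      Finset.sum_nonneg fun i _ => by have := hlam i; positivity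
    linarith
  have hLi : ∀ i, 1 + (C0 : ℝ) ≤ 0.4 * η * e * L * D.lam i := by
    intro i
    have h1 : (1 + (C0 : ℝ)) / (0.4 * η * e * D.lam i) ≤ L := by
      have h2 := Finset.single_le_sum (f := fun i => (1 + (C0 : ℝ)) / (0.4 * η * e * D.lam i))
        (fun i _ => by have := hlam i; positivity) (Finset.mem_univ i)
      linarith
    have h3 : 0 < 0.4 * η * e * D.lam i := by have := hlam i; positivity
    rw [div_le_iff₀ h3] at h1
    linarith
  have hS : ∀ x, μ.sum x + y x
      = if x.1 ∈ cube 0 (s + t1F η e N + N) then red e s (s + t1F η e N) m x else 0 := by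
    intro x
    have h1 := DFunLike.congr_fun hsum x
    rw [Finsupp.add_apply, rst_apply] at h1
    exact h1
  have hsub : ∀ x, μ'.sum x ≤ μ.sum x := by
    intro x
    rw [sum_apply_of_le hle, sum_apply_of_le le_rfl]
    exact Finset.sum_le_sum fun u _ => Nat.mul_le_mul_right _ (Multiset.count_le_of_le u hle)
  have hcov : ∀ x, μ.sum x ≤ m x := by
    intro x
    have h1 := hS x
    have h2 := red_le e s (s + t1F η e N) m x
    split_ifs at h1 <;> omega
  have hout : ∀ x : CC d q, x.1 ∉ cube 0 (s + t1F η e N + N) → μ.sum x = 0 := by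
    intro x hx
    have h1 := hS x
    rw [if_neg hx] at h1
    omega
  have ht1 : t1F η e N = N * (2 + ⌈(4 / η) * Real.log (1 / e)⌉₊) := rfl
  have ht2 : 2 * N + N * ⌈(4 / η) * Real.log (1 / e)⌉₊ = t1F η e N := by rw [ht1]; ring
  refine ⟨μ', hle, ?_, ?_, fun x => (hsub x).trans (hcov x), ?_, ?_⟩
  · ext u
    rw [Multiset.count_filter, Multiset.count_filter]
    by_cases h : ∃ x ∈ u.support, sn x.1 ≤ s
    · rw [if_pos h, if_pos h, hcount u]
      unfold kept Tch
      rw [if_pos h]
    · rw [if_neg h, if_neg h]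
  · intro u hu x hx
    by_contra hgt
    push Not at hgt
    have hu' : u ∈ μ := Multiset.mem_of_le hle hu
    have h1 := le_mx hx
    have h2 : ¬ Tch s u := by
      rintro ⟨z, hz, hzs⟩
      have h3 := mx_le_of_fam (hF u hu') hz
      omega
    have h3 : μ'.count u = 0 := by
      rw [hcount u]
      unfold kept
      rw [if_neg h2, phi_eq_one hη he he1 hN (t := mx u - s) (by omega)]
      simp
    exact (Multiset.count_pos.2 hu).ne' h3
  · intro x hx
    have h1 : μ'.sum x = μ.sum x := by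
      rw [sum_apply_of_le hle, sum_apply_of_le le_rfl]
      refine Finset.sum_congr rfl fun u hu => ?_
      by_cases h0 : u x = 0
      · rw [h0, mul_zero, mul_zero]
      · rw [hcount u]
        unfold kept Tch
        rw [if_pos ⟨x, Finsupp.mem_support_iff.2 h0, hx⟩]
    have h2 := hS x
    have h3 : x.1 ∈ cube 0 (s + t1F η e N + N) := by
      rw [mem_cube, sub_zero]; omega
    rw [if_pos h3, hy x (by omega)] at h2
    have h4 : red e s (s + t1F η e N) m x = m x := by
      unfold red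
      rw [if_neg]
      omega
    omega
  · intro b hb1 hb2
    obtain ⟨t, ht⟩ : ∃ t, t = sn b - s := ⟨_, rfl⟩
    refine ⟨psi η e N t * L, ?_, ?_, ?_⟩
    · have := psi_ge (N := N) (t := t) hη.le he he1.le
      gcongr
    · have := psi_le_one η e N t
      nlinarith
    · intro i
      have hfat' := hfat b hb1 (by omega) i
      have hMS : μ.sum (b, i) = m (b, i) - ⌊e * (m (b, i) : ℝ)⌋₊ := by
        have h2 := hS (b, i)
        have h3 : b ∈ cube 0 (s + t1F η e N + N) := by
          rw [mem_cube, sub_zero]; omega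
        rw [if_pos h3, hy (b, i) hb2] at h2
        unfold red at h2
        rw [if_pos ⟨hb1, hb2⟩] at h2
        omega
      have hfl1 : (⌊e * (m (b, i) : ℝ)⌋₊ : ℝ) ≤ e * (m (b, i) : ℝ) :=
        Nat.floor_le (by positivity)
      have hfl2 := Nat.lt_floor_add_one (e * (m (b, i) : ℝ))
      have hfl3 : ⌊e * (m (b, i) : ℝ)⌋₊ ≤ m (b, i) := by
        refine Nat.floor_le_of_le ?_
        have : (0 : ℝ) ≤ m (b, i) := Nat.cast_nonneg _
        nlinarith
      have hMSr : ((μ.sum (b, i) : ℕ) : ℝ) = m (b, i) - (⌊e * (m (b, i) : ℝ)⌋₊ : ℝ) := by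
        rw [hMS, Nat.cast_sub hfl3]
      have hM0 : (0 : ℝ) ≤ m (b, i) := Nat.cast_nonneg _
      have hdiff : ((m (b, i) : ℝ) - (μ'.sum (b, i) : ℝ)) = (⌊e * (m (b, i) : ℝ)⌋₊ : ℝ)
          + ∑ u ∈ μ.toFinset, ((μ.count u : ℝ) - kept η e N s μ u) * (u (b, i) : ℝ) := by
        have h1 : ((μ'.sum (b, i) : ℕ) : ℝ)
            = ∑ u ∈ μ.toFinset, (kept η e N s μ u : ℝ) * (u (b, i) : ℝ) := by
          rw [sum_apply_of_le hle]
          push_cast
          exact Finset.sum_congr rfl fun u _ => by rw [hcount u]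
        have h2 : ((μ.sum (b, i) : ℕ) : ℝ)
            = ∑ u ∈ μ.toFinset, (μ.count u : ℝ) * (u (b, i) : ℝ) := by
          rw [sum_apply_of_le le_rfl]
          push_cast
          rfl
        simp only [sub_mul, Finset.sum_sub_distrib]
        rw [← h1, ← h2, hMSr]
        ring
      have hsum2 : ((μ.sum (b, i) : ℕ) : ℝ)
            = ∑ u ∈ μ.toFinset, (μ.count u : ℝ) * (u (b, i) : ℝ) := by
        rw [sum_apply_of_le le_rfl]
        push_cast
        rfl
      have hcast : (((m (b, i) - μ'.sum (b, i) : ℕ)) : ℝ)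
          = (m (b, i) : ℝ) - (μ'.sum (b, i) : ℝ) :=
        Nat.cast_sub ((hsub _).trans (hcov _))
      show |(((m (b, i) - μ'.sum (b, i) : ℕ)) : ℝ) - psi η e N t * L * D.lam i|
        ≤ η * (psi η e N t * L) * D.lam i
      rw [hcast]
      refine final_est (M := (m (b, i) : ℝ)) (C := (C0 : ℝ)) (e := e) hη hη2 he (hlam i)
        (by linarith) (Nat.cast_nonneg _) hfat' (psi_ge hη.le he he1.le) ?_ ?_ (hLi i)
      · -- upper bound
        have h1 : ∑ u ∈ μ.toFinset, ((μ.count u : ℝ) - kept η e N s μ u) * (u (b, i) : ℝ)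
            ≤ ∑ u ∈ μ.toFinset, (phi η e N (t + N) * (μ.count u : ℝ) + 1) * (u (b, i) : ℝ) := by
          refine Finset.sum_le_sum fun u hu => ?_
          by_cases h0 : u (b, i) = 0
          · rw [h0]; simp
          · have h3 := mx_le_of_fam (hF u (Multiset.mem_toFinset.1 hu))
              (Finsupp.mem_support_iff.2 h0)
            have h4 := removed_le (N := N) (s := s) hη.le he he1 μ u (t := t + N)
              (by simp only at h3; omega)
            gcongr
        have h2 : ∑ u ∈ μ.toFinset, (phi η e N (t + N) * (μ.count u : ℝ) + 1) * (u (b, i) : ℝ)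
            = phi η e N (t + N) * (μ.sum (b, i) : ℝ)
              + ((∑ u ∈ μ.toFinset, u (b, i) : ℕ) : ℝ) := by
          rw [hsum2, Finset.mul_sum]
          push_cast
          rw [← Finset.sum_add_distrib]
          exact Finset.sum_congr rfl fun u _ => by ring
        have h3 : ((∑ u ∈ μ.toFinset, u (b, i) : ℕ) : ℝ) ≤ C0 := by
          exact_mod_cast hC0 μ hF hout (b, i)
        have h4 := phi_mul (η := η) (N := N) (t := t + N) he1
        have h5 := phi_le_one (η := η) (N := N) (t := t + N) he1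
        have h6 := psi_add hη.le he hN t
        have h7 := phi_nonneg (N := N) (t := t + N) hη.le he he1
        rw [hdiff]
        have h8 : psi η e N (t + N) * (m (b, i) : ℝ)
            ≤ Real.exp (η / 4) * psi η e N t * (m (b, i) : ℝ) := by gcongr
        have h9 : (⌊e * (m (b, i) : ℝ)⌋₊ : ℝ) + phi η e N (t + N) * (μ.sum (b, i) : ℝ)
            ≤ psi η e N (t + N) * (m (b, i) : ℝ) := by
          rw [hMSr]
          have h10 : psi η e N (t + N) = e + phi η e N (t + N) * (1 - e) := by linarith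
          rw [h10]
          nlinarith
        linarith
      · -- lower bound
        rw [hdiff]
        have hps0 : 0 < psi η e N t := lt_of_lt_of_le he (psi_ge hη.le he he1.le)
        have hexp : Real.exp (-(η / 4)) ≤ 1 := Real.exp_le_one_iff.2 (by linarith)
        rcases Nat.lt_or_ge N t with hNt | hNt
        · have h1 : ∑ u ∈ μ.toFinset, (phi η e N t * (μ.count u : ℝ)) * (u (b, i) : ℝ)
              ≤ ∑ u ∈ μ.toFinset, ((μ.count u : ℝ) - kept η e N s μ u) * (u (b, i) : ℝ) := by
            refine Finset.sum_le_sum fun u hu => ?_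
            by_cases h0 : u (b, i) = 0
            · rw [h0]; simp
            · have hub : (b, i) ∈ u.support := Finsupp.mem_support_iff.2 h0
              have h3 := le_mx hub
              have h4 : ¬ Tch s u := by
                rintro ⟨z, hz, hzs⟩
                have h5 := sn_le_of_fam (hF u (Multiset.mem_toFinset.1 hu)) hub hz
                simp only at h5
                omega
              have h6 := removed_ge (N := N) (s := s) hη.le he he1 μ u (t := t) h4
                (by simp only at h3; omega)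
              gcongr
          have h2 : ∑ u ∈ μ.toFinset, (phi η e N t * (μ.count u : ℝ)) * (u (b, i) : ℝ)
              = phi η e N t * (μ.sum (b, i) : ℝ) := by
            rw [hsum2, Finset.mul_sum]
            exact Finset.sum_congr rfl fun u _ => by ring
          have h4 := phi_mul (η := η) (N := N) (t := t) he1
          have h5 := phi_le_one (η := η) (N := N) (t := t) he1
          have h7 := phi_nonneg (N := N) (t := t) hη.le he he1
          have h9 : psi η e N t * (m (b, i) : ℝ) - 1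
              ≤ (⌊e * (m (b, i) : ℝ)⌋₊ : ℝ) + phi η e N t * (μ.sum (b, i) : ℝ) := by
            rw [hMSr]
            have h10 : psi η e N t = e + phi η e N t * (1 - e) := by linarith
            rw [h10]
            nlinarith
          have h11 : Real.exp (-(η / 4)) * psi η e N t * (m (b, i) : ℝ)
              ≤ psi η e N t * (m (b, i) : ℝ) := by
            have : Real.exp (-(η / 4)) * psi η e N t ≤ 1 * psi η e N t := by gcongr
            nlinarith
          linarith
        · have h1 : 0 ≤ ∑ u ∈ μ.toFinset, ((μ.count u : ℝ) - kept η e N s μ u)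
              * (u (b, i) : ℝ) := by
            refine Finset.sum_nonneg fun u _ => mul_nonneg ?_ (Nat.cast_nonneg _)
            have := kept_le (N := N) (s := s) hη.le he he1 μ u
            rw [sub_nonneg]
            exact_mod_cast this
          have h2 := psi_le hη.le he hN hNt
          have h3 : Real.exp (-(η / 4)) * psi η e N t ≤ e := by
            calc Real.exp (-(η / 4)) * psi η e N t
                ≤ Real.exp (-(η / 4)) * (e * Real.exp (η / 4)) := by gcongr
              _ = e * (Real.exp (-(η / 4)) * Real.exp (η / 4)) := by ring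
              _ = e := by rw [← Real.exp_add]; simp
          have h4 : Real.exp (-(η / 4)) * psi η e N t * (m (b, i) : ℝ) ≤ e * (m (b, i) : ℝ) := by
            gcongr
          linarith

end

end Pool.Agent.H42.MC
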